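import Pool.Agent.Work.MP_2738db_nt_helper84.OneClass

/-! Assembly: the count of the solutions of `a ^ m + b ^ n = c ^ k` with one large exponent. -/

namespace Pool.Agent.Work.MP_2738db_nt_helper84

open NumberField

/-- The `x ≤ X` prime to `D` with `|D - x ^ s|` a positive `t`-th power. -/
def SX (D s t : ℕ) (X : ℝ) : Set ℕ :=
  {x : ℕ | (x : ℝ) ≤ X ∧ Nat.Coprime x D ∧ ∃ y : ℕ, 1 ≤ y ∧ |((D : ℤ) - (x : ℤ) ^ s)| = (y : ℤ) ^ t}

theorem fixed_zr (s t : ℕ) (hs : 2 ≤ s) (ht : 2 ≤ t) (δ : ℝ) (hδ : 0 < δ) :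
    ∃ C : ℝ, 1 ≤ C ∧ ∀ z r : ℕ, 1 ≤ z → ∀ X : ℝ, 1 ≤ X → (z : ℝ) ≤ X → (z : ℝ) ^ r ≤ X →
      (SX (z ^ r) s t X).Finite ∧
      (((SX (z ^ r) s t X).ncard : ℕ) : ℝ) ≤ C * (z : ℝ) ^ (((s : ℝ) - 1) / 2) * X ^ δ := by
  classical
  have hsR : (2 : ℝ) ≤ s := by exact_mod_cast hs
  obtain ⟨C0, hC01, hC0⟩ := classes s t (by omega) (by omega) (δ / (s + 1)) (by positivity)
  obtain ⟨C1, hC1, hone⟩ := one_class s t (by omega) ht (δ / 2) (by positivity)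
  refine ⟨C0 ^ 2 * C1, ?_, ?_⟩
  · have h0 : (1 : ℝ) ≤ C0 ^ 2 := one_le_pow₀ hC01
    nlinarith
  intro z r hz X hX hzX1 hzX
  have hX0 : (0 : ℝ) < X := by linarith
  have hz1 : (1 : ℝ) ≤ z := by exact_mod_cast hz
  have hz0 : (0 : ℝ) < z := by linarith
  have hzp : (1 : ℝ) ≤ (z : ℝ) ^ (((s : ℝ) - 1) / 2) := Real.one_le_rpow hz1 (by linarith)
  have hXp : (0 : ℝ) < X ^ δ := Real.rpow_pos_of_pos hX0 _
  have hXp2 : (1 : ℝ) ≤ X ^ (δ / 2) := Real.one_le_rpow hX (by positivity)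
  have hXX : X ^ (δ / 2) * X ^ (δ / 2) = X ^ δ := by
    rw [← Real.rpow_add hX0]; congr 1; ring
  have hC02 : C0 ≤ C0 ^ 2 := by nlinarith
  have hC10 : 0 < C1 := by linarith
  set D : ℕ := z ^ r with hD
  have hDX : (D : ℝ) ≤ X := by rw [hD]; push_cast; exact hzX
  have hD1 : 1 ≤ D := Nat.one_le_iff_ne_zero.2 (pow_ne_zero _ (by omega))
  by_cases hw : ∃ w : ℕ, w ^ s = D
  · obtain ⟨w, hw⟩ := hw
    have hw0 : w ≠ 0 := by
      rintro rfl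
      rw [zero_pow (by omega)] at hw
      omega
    set ζ : ℂ := Complex.exp (2 * Real.pi * Complex.I / s) with hζ
    have hζp : IsPrimitiveRoot ζ s := Complex.isPrimitiveRoot_exp s (by omega)
    obtain ⟨L, hL, hd, a, ha, F, hFc, hF⟩ := hC0 1 le_rfl ζ (by rw [hζp.pow_eq_one]; simp)
    have has : a ^ s = 1 := by
      apply inc_injective L
      rw [map_pow, ha, hζp.pow_eq_one, map_one]
    let η1 : 𝓞 L := (w : 𝓞 L)
    let η2 : 𝓞 L := a * w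
    have hη1 : η1 ^ s = (D : 𝓞 L) := by
      show (w : 𝓞 L) ^ s = _
      rw [← hw]; push_cast; rfl
    have hη2 : η2 ^ s = (D : 𝓞 L) := by
      show (a * w) ^ s = _
      rw [mul_pow, has, one_mul, ← hw]; push_cast; rfl
    let τ : L →+* ℂ := algebraMap L ℂ
    have hne : τ (η1 : L) ≠ τ (η2 : L) := by
      have h1 : τ (η1 : L) = w := by
        show inc L (w : 𝓞 L) = w
        rw [map_natCast]
      have h2 : τ (η2 : L) = ζ * w := by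
        show inc L (a * w) = ζ * w
        rw [map_mul, ha, map_natCast]
      rw [h1, h2]
      intro h
      have h3 : (ζ - 1) * w = 0 := by linear_combination -h
      rcases mul_eq_zero.1 h3 with h4 | h4
      · exact hζp.ne_one (by omega) (sub_eq_zero.1 h4)
      · exact hw0 (by exact_mod_cast h4)
    have hcov : SX D s t X ⊆ ⋃ p ∈ F ×ˢ F, {x : ℕ | (x : ℝ) ≤ X ∧ Cls t (η1 - (x : 𝓞 L)) p.1 ∧
        Cls t (η2 - (x : 𝓞 L)) p.2} := by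
      rintro x ⟨hxX, hxD, y, hy, hxy⟩
      obtain ⟨f1, hf1, hc1⟩ := hF D x y hxD hy hxy η1 hη1
      obtain ⟨f2, hf2, hc2⟩ := hF D x y hxD hy hxy η2 hη2
      simp only [Set.mem_iUnion, Finset.mem_product]
      exact ⟨(f1, f2), ⟨hf1, hf2⟩, hxX, hc1, hc2⟩
    have hfin : (⋃ p ∈ F ×ˢ F, {x : ℕ | (x : ℝ) ≤ X ∧ Cls t (η1 - (x : 𝓞 L)) p.1 ∧
        Cls t (η2 - (x : 𝓞 L)) p.2}).Finite :=
      Set.Finite.biUnion (Finset.finite_toSet _)
        (fun p _ => (hone L hd τ τ η1 η2 p.1 p.2 D hη1 hη2 hne X hX hDX).1)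
    refine ⟨hfin.subset hcov, ?_⟩
    have h1 : ((SX D s t X).ncard : ℝ) ≤ ∑ p ∈ F ×ˢ F, C1 * X ^ (δ / 2) := by
      calc ((SX D s t X).ncard : ℝ) ≤ ((⋃ p ∈ F ×ˢ F, {x : ℕ | (x : ℝ) ≤ X ∧
              Cls t (η1 - (x : 𝓞 L)) p.1 ∧ Cls t (η2 - (x : 𝓞 L)) p.2}).ncard : ℝ) := by
            exact_mod_cast Set.ncard_le_ncard hcov hfin
        _ ≤ ((∑ p ∈ F ×ˢ F, {x : ℕ | (x : ℝ) ≤ X ∧
              Cls t (η1 - (x : 𝓞 L)) p.1 ∧ Cls t (η2 - (x : 𝓞 L)) p.2}.ncard : ℕ) : ℝ) := by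
            exact_mod_cast Finset.set_ncard_biUnion_le _ _
        _ = ∑ p ∈ F ×ˢ F, (({x : ℕ | (x : ℝ) ≤ X ∧
              Cls t (η1 - (x : 𝓞 L)) p.1 ∧ Cls t (η2 - (x : 𝓞 L)) p.2}.ncard : ℕ) : ℝ) := by
            push_cast; rfl
        _ ≤ _ := Finset.sum_le_sum
            (fun p _ => (hone L hd τ τ η1 η2 p.1 p.2 D hη1 hη2 hne X hX hDX).2)
    rw [Finset.sum_const, Finset.card_product, nsmul_eq_mul] at h1
    have h2 : ((F.card * F.card : ℕ) : ℝ) ≤ C0 ^ 2 := by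
      have h3 : (F.card : ℝ) ≤ C0 := by
        have h4 := hFc
        rw [Nat.cast_one, Real.one_rpow, mul_one] at h4
        exact h4
      rw [sq]
      push_cast
      exact mul_le_mul h3 h3 (Nat.cast_nonneg _) (by linarith)
    refine h1.trans ?_
    calc ((F.card * F.card : ℕ) : ℝ) * (C1 * X ^ (δ / 2)) ≤ C0 ^ 2 * (C1 * X ^ (δ / 2)) :=
          mul_le_mul_of_nonneg_right h2 (by positivity)
      _ = C0 ^ 2 * C1 * 1 * (X ^ (δ / 2) * 1) := by ring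
      _ ≤ C0 ^ 2 * C1 * (z : ℝ) ^ (((s : ℝ) - 1) / 2) * (X ^ (δ / 2) * X ^ (δ / 2)) := by
          apply mul_le_mul
          · apply mul_le_mul_of_nonneg_left hzp
            positivity
          · apply mul_le_mul_of_nonneg_left hXp2
            positivity
          · positivity
          · positivity
      _ = _ := by rw [hXX]
  · obtain ⟨θ, hθ⟩ : ∃ θ : ℂ, θ ^ s = (z : ℂ) := IsAlgClosed.exists_pow_nat_eq _ (by omega)
    obtain ⟨L, hL, hd, a, ha, F, hFc, hF⟩ := hC0 z hz θ hθ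
    have has : a ^ s = (z : 𝓞 L) := by
      apply inc_injective L
      rw [map_pow, ha, hθ, map_natCast]
    let η : 𝓞 L := a ^ r
    have hη : η ^ s = (D : 𝓞 L) := by
      show (a ^ r) ^ s = _
      rw [← pow_mul, mul_comm, pow_mul, has, hD]; push_cast; rfl
    obtain ⟨τ1, τ2, hne⟩ : ∃ τ1 τ2 : L →+* ℂ, τ1 (η : L) ≠ τ2 (η : L) := by
      by_contra hcon
      push Not at hcon
      obtain ⟨w, hw'⟩ := eq_int_of_embeddings η hcon
      apply hw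
      refine ⟨w.natAbs, ?_⟩
      rw [hw'] at hη
      have h1 : w ^ s = (D : ℤ) := by exact_mod_cast hη
      have h2 := congrArg Int.natAbs h1
      rw [Int.natAbs_pow] at h2
      simpa using h2
    have hcov : SX D s t X ⊆ ⋃ f ∈ F, {x : ℕ | (x : ℝ) ≤ X ∧ Cls t (η - (x : 𝓞 L)) f ∧
        Cls t (η - (x : 𝓞 L)) f} := by
      rintro x ⟨hxX, hxD, y, hy, hxy⟩
      obtain ⟨f, hf, hc⟩ := hF D x y hxD hy hxy η hη
      simp only [Set.mem_iUnion]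
      exact ⟨f, hf, hxX, hc, hc⟩
    have hfin : (⋃ f ∈ F, {x : ℕ | (x : ℝ) ≤ X ∧ Cls t (η - (x : 𝓞 L)) f ∧
        Cls t (η - (x : 𝓞 L)) f}).Finite :=
      Set.Finite.biUnion (Finset.finite_toSet _)
        (fun f _ => (hone L hd τ1 τ2 η η f f D hη hη hne X hX hDX).1)
    refine ⟨hfin.subset hcov, ?_⟩
    have h1 : ((SX D s t X).ncard : ℝ) ≤ ∑ f ∈ F, C1 * X ^ (δ / 2) := by
      calc ((SX D s t X).ncard : ℝ) ≤ ((⋃ f ∈ F, {x : ℕ | (x : ℝ) ≤ X ∧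
              Cls t (η - (x : 𝓞 L)) f ∧ Cls t (η - (x : 𝓞 L)) f}).ncard : ℝ) := by
            exact_mod_cast Set.ncard_le_ncard hcov hfin
        _ ≤ ((∑ f ∈ F, {x : ℕ | (x : ℝ) ≤ X ∧
              Cls t (η - (x : 𝓞 L)) f ∧ Cls t (η - (x : 𝓞 L)) f}.ncard : ℕ) : ℝ) := by
            exact_mod_cast Finset.set_ncard_biUnion_le _ _
        _ = ∑ f ∈ F, (({x : ℕ | (x : ℝ) ≤ X ∧
              Cls t (η - (x : 𝓞 L)) f ∧ Cls t (η - (x : 𝓞 L)) f}.ncard : ℕ) : ℝ) := by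
            push_cast; rfl
        _ ≤ _ := Finset.sum_le_sum
            (fun f _ => (hone L hd τ1 τ2 η η f f D hη hη hne X hX hDX).2)
    rw [Finset.sum_const, nsmul_eq_mul] at h1
    have h2 : (F.card : ℝ) ≤ C0 * ((z : ℝ) ^ (((s : ℝ) - 1) / 2) * X ^ (δ / 2)) := by
      refine hFc.trans ?_
      apply mul_le_mul_of_nonneg_left _ (by linarith)
      have e1 : ((s : ℝ) - 1) / 2 * (1 + δ / (s + 1)) =
          ((s : ℝ) - 1) / 2 + ((s : ℝ) - 1) / 2 * (δ / (s + 1)) := by ring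
      rw [e1, Real.rpow_add hz0]
      apply mul_le_mul_of_nonneg_left _ (by positivity)
      calc (z : ℝ) ^ (((s : ℝ) - 1) / 2 * (δ / (s + 1))) ≤ (z : ℝ) ^ (δ / 2) := by
            apply Real.rpow_le_rpow_of_exponent_le hz1
            rw [div_mul_div_comm, div_le_div_iff₀ (by positivity) (by norm_num)]
            nlinarith
        _ ≤ X ^ (δ / 2) := Real.rpow_le_rpow hz0.le hzX1 (by positivity)
    refine h1.trans ?_
    calc (F.card : ℝ) * (C1 * X ^ (δ / 2))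
        ≤ (C0 * ((z : ℝ) ^ (((s : ℝ) - 1) / 2) * X ^ (δ / 2))) * (C1 * X ^ (δ / 2)) :=
          mul_le_mul_of_nonneg_right h2 (by positivity)
      _ = C0 * (C1 * (z : ℝ) ^ (((s : ℝ) - 1) / 2) * (X ^ (δ / 2) * X ^ (δ / 2))) := by ring
      _ ≤ C0 ^ 2 * (C1 * (z : ℝ) ^ (((s : ℝ) - 1) / 2) * (X ^ (δ / 2) * X ^ (δ / 2))) :=
          mul_le_mul_of_nonneg_right hC02 (by positivity)
      _ = C0 ^ 2 * C1 * (z : ℝ) ^ (((s : ℝ) - 1) / 2) * X ^ δ := by rw [hXX]; ring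

theorem log_bound (δ : ℝ) (hδ : 0 < δ) : ∃ C : ℝ, 1 ≤ C ∧ ∀ X : ℕ, 1 ≤ X →
    ((Nat.log 2 X + 1 : ℕ) : ℝ) ≤ C * (X : ℝ) ^ δ := by
  have hl2 : 0 < Real.log 2 := Real.log_pos (by norm_num)
  refine ⟨1 / (δ * Real.log 2) + 1, ?_, ?_⟩
  · have : 0 < 1 / (δ * Real.log 2) := by positivity
    linarith
  · intro X hX
    have hX1 : (1 : ℝ) ≤ X := by exact_mod_cast hX
    have hXp : 1 ≤ (X : ℝ) ^ δ := Real.one_le_rpow hX1 hδ.le
    have h1 : ((Nat.log 2 X : ℕ) : ℝ) ≤ Real.logb 2 X := Real.natLog_le_logb X 2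
    have h2 : Real.logb 2 X ≤ 1 / (δ * Real.log 2) * (X : ℝ) ^ δ := by
      have h3 := Real.log_le_rpow_div (x := (X : ℝ)) (by linarith) hδ
      rw [Real.logb, div_le_iff₀ hl2]
      calc Real.log X ≤ (X : ℝ) ^ δ / δ := h3
        _ = 1 / (δ * Real.log 2) * (X : ℝ) ^ δ * Real.log 2 := by field_simp
    push_cast
    linarith

/-- Normalised pairs base/exponent with base at most `Z` and value at most `X`. -/
def PR (Z X : ℕ) : Finset (ℕ × ℕ) :=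
  ((Finset.Icc 1 Z) ×ˢ (Finset.Icc 0 (Nat.log 2 X))).filter (fun p => p.1 ^ p.2 ≤ X)

theorem norm_pair {Z X z r : ℕ} (hz : 1 ≤ z) (hZ : z ≤ Z) (_hr : 1 ≤ r) (h : z ^ r ≤ X) :
    ∃ r', (z, r') ∈ PR Z X ∧ z ^ r' = z ^ r := by
  have hX : 1 ≤ X := le_trans (Nat.one_le_iff_ne_zero.2 (pow_ne_zero _ (by omega))) h
  rcases Nat.lt_or_ge z 2 with h2 | h2
  · have hz1 : z = 1 := by omega
    subst hz1
    refine ⟨0, ?_, by simp⟩
    unfold PR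
    simp only [Finset.mem_filter, Finset.mem_product, Finset.mem_Icc]
    simp [hX, hZ]
  · refine ⟨r, ?_, rfl⟩
    unfold PR
    simp only [Finset.mem_filter, Finset.mem_product, Finset.mem_Icc]
    have h3 : r ≤ Nat.log 2 X := by
      apply Nat.le_log_of_pow_le (by norm_num)
      exact (Nat.pow_le_pow_left h2 r).trans h
    exact ⟨⟨⟨hz, hZ⟩, Nat.zero_le _, h3⟩, h⟩

theorem mem_PR {Z X : ℕ} {p : ℕ × ℕ} (hp : p ∈ PR Z X) :
    1 ≤ p.1 ∧ p.1 ≤ Z ∧ p.1 ^ p.2 ≤ X := by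
  unfold PR at hp
  simp only [Finset.mem_filter, Finset.mem_product, Finset.mem_Icc] at hp
  exact ⟨hp.1.1.1, hp.1.1.2, hp.2⟩

theorem PR_card (Z X : ℕ) : (PR Z X).card ≤ Z * (Nat.log 2 X + 1) := by
  unfold PR
  refine (Finset.card_filter_le _ _).trans ?_
  rw [Finset.card_product, Nat.card_Icc, Nat.card_Icc]
  simp

/-- values of powers with base at most `Z` -/
def PV (Z X : ℕ) : Finset ℕ := (PR Z X).image (fun p => p.1 ^ p.2)

theorem mem_PV {Z X b e : ℕ} (hb : 1 ≤ b) (hZ : b ≤ Z) (he : 1 ≤ e) (h : b ^ e ≤ X) :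
    b ^ e ∈ PV Z X := by
  obtain ⟨r', h1, h2⟩ := norm_pair hb hZ he h
  exact Finset.mem_image.2 ⟨(b, r'), h1, h2⟩

/-- a base whose exponent is at least `T` is at most `X ^ (1 / T)` -/
theorem base_le {T X b e : ℕ} (hT : 1 ≤ T) (hb : 1 ≤ b) (he : T ≤ e) (h : b ^ e ≤ X) :
    b ≤ ⌊(X : ℝ) ^ (1 / (T : ℝ))⌋₊ := by
  apply Nat.le_floor
  have h6 : b ^ T ≤ X := (Nat.pow_le_pow_right hb he).trans h
  have h7 : ((b : ℝ)) ^ T ≤ X := by exact_mod_cast h6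
  have hKR : (0 : ℝ) < T := by exact_mod_cast hT
  calc (b : ℝ) = ((b : ℝ) ^ T) ^ (1 / (T : ℝ)) := by
        rw [← Real.rpow_natCast, ← Real.rpow_mul (Nat.cast_nonneg _), mul_one_div_cancel hKR.ne',
          Real.rpow_one]
    _ ≤ (X : ℝ) ^ (1 / (T : ℝ)) := Real.rpow_le_rpow (by positivity) h7 (by positivity)

/-- The three ways of reading off a solution. -/
def rd (j : Fin 3) (D v : ℕ) : ℕ × ℕ × ℕ :=
  if j = 0 then (v, D - v, D) else if j = 1 then (D, v - D, v) else (v - D, D, v)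

def rs (j : Fin 3) (p : ℕ × ℕ) : ℕ × ℕ × ℕ :=
  if j = 0 then (p.1, p.2 - p.1, p.2) else if j = 1 then (p.2 - p.1, p.1, p.2)
  else (p.1, p.2, p.1 + p.2)

/-- The value triples of the solutions with one base at most `Z`. -/
def Sol (Z X : ℕ) : Set (ℕ × ℕ × ℕ) :=
  {p | ∃ a b c m n k : ℕ, 0 < a ∧ 0 < b ∧ 0 < c ∧
    Nat.Coprime a b ∧ Nat.Coprime b c ∧ Nat.Coprime a c ∧ 2 ≤ m ∧ 2 ≤ n ∧ 2 ≤ k ∧
    (a ≤ Z ∨ b ≤ Z ∨ c ≤ Z) ∧ a ^ m + b ^ n = c ^ k ∧ c ^ k ≤ X ∧ p = (a ^ m, b ^ n, c ^ k)}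

theorem cover {Z T X : ℕ} (hT : 2 ≤ T) :
    Sol Z X ⊆ (⋃ q ∈ (Finset.univ : Finset (Fin 3)) ×ˢ
        ((PV Z X ×ˢ PV ⌊(X : ℝ) ^ (1 / (T : ℝ))⌋₊ X) ∪
          (PV ⌊(X : ℝ) ^ (1 / (T : ℝ))⌋₊ X ×ˢ PV Z X)), {rs q.1 q.2}) ∪
      (⋃ q ∈ ((Finset.univ : Finset (Fin 3)) ×ˢ (Finset.Ico 2 T ×ˢ Finset.Ico 2 T)) ×ˢ PR Z X,
        (fun x => rd q.1.1 (q.2.1 ^ q.2.2) (x ^ q.1.2.1)) ''
          SX (q.2.1 ^ q.2.2) q.1.2.1 q.1.2.2 X) := by
  rintro p ⟨a, b, c, m, n, k, ha, hb, hc, hab, hbc, hac, hm, hn, hk, hor, he, hX, rfl⟩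
  have ham : 0 < a ^ m := Nat.pow_pos ha
  have hbn : 0 < b ^ n := Nat.pow_pos hb
  have hck : 0 < c ^ k := Nat.pow_pos hc
  have haX : a ^ m ≤ X := by omega
  have hbX : b ^ n ≤ X := by omega
  set V := PV ⌊(X : ℝ) ^ (1 / (T : ℝ))⌋₊ X with hV
  set W := PV Z X with hW
  -- sparse cases
  have sp0 : (a ^ m, c ^ k) ∈ (W ×ˢ V) ∪ (V ×ˢ W) → (a ^ m, b ^ n, c ^ k) ∈
      (⋃ q ∈ (Finset.univ : Finset (Fin 3)) ×ˢ ((W ×ˢ V) ∪ (V ×ˢ W)), {rs q.1 q.2}) := by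
    intro h1
    simp only [Set.mem_iUnion, Set.mem_singleton_iff]
    refine ⟨(0, (a ^ m, c ^ k)), Finset.mem_product.2 ⟨Finset.mem_univ _, h1⟩, ?_⟩
    have : c ^ k - a ^ m = b ^ n := by omega
    simp [rs, this]
  have sp1 : (b ^ n, c ^ k) ∈ (W ×ˢ V) ∪ (V ×ˢ W) → (a ^ m, b ^ n, c ^ k) ∈
      (⋃ q ∈ (Finset.univ : Finset (Fin 3)) ×ˢ ((W ×ˢ V) ∪ (V ×ˢ W)), {rs q.1 q.2}) := by
    intro h1
    simp only [Set.mem_iUnion, Set.mem_singleton_iff]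
    refine ⟨(1, (b ^ n, c ^ k)), Finset.mem_product.2 ⟨Finset.mem_univ _, h1⟩, ?_⟩
    have : c ^ k - b ^ n = a ^ m := by omega
    simp [rs, this]
  have sp2 : (a ^ m, b ^ n) ∈ (W ×ˢ V) ∪ (V ×ˢ W) → (a ^ m, b ^ n, c ^ k) ∈
      (⋃ q ∈ (Finset.univ : Finset (Fin 3)) ×ˢ ((W ×ˢ V) ∪ (V ×ˢ W)), {rs q.1 q.2}) := by
    intro h1
    simp only [Set.mem_iUnion, Set.mem_singleton_iff]
    refine ⟨(2, (a ^ m, b ^ n)), Finset.mem_product.2 ⟨Finset.mem_univ _, h1⟩, ?_⟩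
    simp [rs, he]
  have wv : ∀ u v, u ∈ W → v ∈ V → (u, v) ∈ (W ×ˢ V) ∪ (V ×ˢ W) := fun u v h1 h2 =>
    Finset.mem_union_left _ (Finset.mem_product.2 ⟨h1, h2⟩)
  have vw : ∀ u v, u ∈ V → v ∈ W → (u, v) ∈ (W ×ˢ V) ∪ (V ×ˢ W) := fun u v h1 h2 =>
    Finset.mem_union_right _ (Finset.mem_product.2 ⟨h1, h2⟩)
  have pva : T ≤ m → a ^ m ∈ V := fun h =>
    mem_PV ha (base_le (by omega) ha h haX) (by omega) haX
  have pvb : T ≤ n → b ^ n ∈ V := fun h =>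
    mem_PV hb (base_le (by omega) hb h hbX) (by omega) hbX
  have pvc : T ≤ k → c ^ k ∈ V := fun h =>
    mem_PV hc (base_le (by omega) hc h hX) (by omega) hX
  have heZ : (a : ℤ) ^ m + (b : ℤ) ^ n = (c : ℤ) ^ k := by exact_mod_cast he
  rcases hor with h | h | h
  · -- `a ≤ Z`
    have hwa : a ^ m ∈ W := mem_PV ha h (by omega) haX
    rcases Nat.lt_or_ge k T with hkT | hkT
    · rcases Nat.lt_or_ge n T with hnT | hnT
      · right
        obtain ⟨r', hr', hr''⟩ := norm_pair ha h (by omega : 1 ≤ m) haX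
        simp only [Set.mem_iUnion, Finset.mem_product, Finset.mem_Ico]
        refine ⟨((1, (k, n)), (a, r')), ⟨⟨Finset.mem_univ _, ⟨hk, hkT⟩, ⟨hn, hnT⟩⟩, hr'⟩, c, ?_, ?_⟩
        · simp only
          rw [hr'']
          refine ⟨?_, ?_, b, hb, ?_⟩
          · have : c ≤ X := (Nat.le_self_pow (by omega) c).trans hX
            exact_mod_cast this
          · exact Nat.Coprime.pow_right _ hac.symm
          · push_cast
            have : (a : ℤ) ^ m - (c : ℤ) ^ k = -((b : ℤ) ^ n) := by linarith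
            rw [this, abs_neg, abs_of_nonneg (by positivity)]
        · simp only
          rw [hr'']
          have : c ^ k - a ^ m = b ^ n := by omega
          simp [rd, this]
      · left; exact sp2 (wv _ _ hwa (pvb hnT))
    · left; exact sp0 (wv _ _ hwa (pvc hkT))
  · -- `b ≤ Z`
    have hwb : b ^ n ∈ W := mem_PV hb h (by omega) hbX
    rcases Nat.lt_or_ge k T with hkT | hkT
    · rcases Nat.lt_or_ge m T with hmT | hmT
      · right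
        obtain ⟨r', hr', hr''⟩ := norm_pair hb h (by omega : 1 ≤ n) hbX
        simp only [Set.mem_iUnion, Finset.mem_product, Finset.mem_Ico]
        refine ⟨((2, (k, m)), (b, r')), ⟨⟨Finset.mem_univ _, ⟨hk, hkT⟩, ⟨hm, hmT⟩⟩, hr'⟩, c, ?_, ?_⟩
        · simp only
          rw [hr'']
          refine ⟨?_, ?_, a, ha, ?_⟩
          · have : c ≤ X := (Nat.le_self_pow (by omega) c).trans hX
            exact_mod_cast this
          · exact Nat.Coprime.pow_right _ hbc.symm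
          · push_cast
            have : (b : ℤ) ^ n - (c : ℤ) ^ k = -((a : ℤ) ^ m) := by linarith
            rw [this, abs_neg, abs_of_nonneg (by positivity)]
        · simp only
          rw [hr'']
          have : c ^ k - b ^ n = a ^ m := by omega
          simp [rd, this]
      · left; exact sp2 (vw _ _ (pva hmT) hwb)
    · left; exact sp1 (wv _ _ hwb (pvc hkT))
  · -- `c ≤ Z`
    have hwc : c ^ k ∈ W := mem_PV hc h (by omega) hX
    rcases Nat.lt_or_ge m T with hmT | hmT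
    · rcases Nat.lt_or_ge n T with hnT | hnT
      · right
        obtain ⟨r', hr', hr''⟩ := norm_pair hc h (by omega : 1 ≤ k) hX
        simp only [Set.mem_iUnion, Finset.mem_product, Finset.mem_Ico]
        refine ⟨((0, (m, n)), (c, r')), ⟨⟨Finset.mem_univ _, ⟨hm, hmT⟩, ⟨hn, hnT⟩⟩, hr'⟩, a, ?_, ?_⟩
        · simp only
          rw [hr'']
          refine ⟨?_, ?_, b, hb, ?_⟩
          · have : a ≤ X := (Nat.le_self_pow (by omega) a).trans haX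
            exact_mod_cast this
          · exact Nat.Coprime.pow_right _ hac
          · push_cast
            have : (c : ℤ) ^ k - (a : ℤ) ^ m = (b : ℤ) ^ n := by linarith
            rw [this, abs_of_nonneg (by positivity)]
        · simp only
          rw [hr'']
          have : c ^ k - a ^ m = b ^ n := by omega
          simp [rd, this]
      · left; exact sp1 (vw _ _ (pvb hnT) hwc)
    · left; exact sp0 (vw _ _ (pva hmT) hwc)

theorem count (T : ℕ) (hT : 2 ≤ T) (η : ℝ) (hη : 0 < η) (hη1 : η ≤ 1) (δ : ℝ) (hδ : 0 < δ) :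
    ∃ C : ℝ, 1 ≤ C ∧ ∀ X : ℕ, 1 ≤ X → (Sol ⌊(X : ℝ) ^ η⌋₊ X).Finite ∧
      (((Sol ⌊(X : ℝ) ^ η⌋₊ X).ncard : ℕ) : ℝ) ≤ C * ((X : ℝ) ^ (η + 1 / (T : ℝ) + 2 * δ) +
        (if 3 ≤ T then (X : ℝ) ^ (η * T / 2 + 2 * δ) else 0)) := by
  classical
  obtain ⟨Cl, hCl, hlog⟩ := log_bound δ hδ
  -- uniform constant over `(s, t)`
  obtain ⟨Cm, hCm, hmain⟩ : ∃ Cm : ℝ, 1 ≤ Cm ∧ ∀ s ∈ Finset.Ico 2 T, ∀ t ∈ Finset.Ico 2 T,
      ∀ z r : ℕ, 1 ≤ z → ∀ X : ℝ, 1 ≤ X → (z : ℝ) ≤ X → (z : ℝ) ^ r ≤ X →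
      (SX (z ^ r) s t X).Finite ∧
      (((SX (z ^ r) s t X).ncard : ℕ) : ℝ) ≤ Cm * (z : ℝ) ^ (((s : ℝ) - 1) / 2) * X ^ δ := by
    have hex : ∀ q : ℕ × ℕ, ∃ C : ℝ, 1 ≤ C ∧ (2 ≤ q.1 → 2 ≤ q.2 → ∀ z r : ℕ, 1 ≤ z →
        ∀ X : ℝ, 1 ≤ X → (z : ℝ) ≤ X → (z : ℝ) ^ r ≤ X → (SX (z ^ r) q.1 q.2 X).Finite ∧
        (((SX (z ^ r) q.1 q.2 X).ncard : ℕ) : ℝ) ≤
          C * (z : ℝ) ^ (((q.1 : ℝ) - 1) / 2) * X ^ δ) := by
      intro q
      by_cases h : 2 ≤ q.1 ∧ 2 ≤ q.2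
      · obtain ⟨C, h1, h2⟩ := fixed_zr q.1 q.2 h.1 h.2 δ hδ
        exact ⟨C, h1, fun _ _ => h2⟩
      · exact ⟨1, le_rfl, fun h1 h2 => absurd ⟨h1, h2⟩ h⟩
    choose Cf hCf1 hCf2 using hex
    refine ⟨1 + ∑ q ∈ Finset.Ico 2 T ×ˢ Finset.Ico 2 T, Cf q, ?_, ?_⟩
    · have : 0 ≤ ∑ q ∈ Finset.Ico 2 T ×ˢ Finset.Ico 2 T, Cf q :=
        Finset.sum_nonneg (fun q _ => by linarith [hCf1 q])
      linarith
    · intro s hs t ht z r hz X hX hzX1 hzX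
      obtain ⟨h1, h2⟩ := hCf2 (s, t) (Finset.mem_Ico.1 hs).1 (Finset.mem_Ico.1 ht).1 z r hz X hX
        hzX1 hzX
      refine ⟨h1, h2.trans ?_⟩
      have h3 : Cf (s, t) ≤ ∑ q ∈ Finset.Ico 2 T ×ˢ Finset.Ico 2 T, Cf q :=
        Finset.single_le_sum (f := Cf) (fun q _ => by linarith [hCf1 q])
          (Finset.mem_product.2 ⟨hs, ht⟩)
      have hX0 : (0 : ℝ) < X := by linarith
      apply mul_le_mul_of_nonneg_right _ (Real.rpow_pos_of_pos hX0 _).le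
      apply mul_le_mul_of_nonneg_right _ (by positivity)
      linarith
  have hT0 : (0 : ℝ) < T := by exact_mod_cast (by omega : 0 < T)
  refine ⟨6 * Cl ^ 2 + 3 * (T : ℝ) ^ 2 * Cl * Cm, ?_, ?_⟩
  · have h1 : (1 : ℝ) ≤ Cl ^ 2 := one_le_pow₀ hCl
    have h2 : 0 ≤ 3 * (T : ℝ) ^ 2 * Cl * Cm := by positivity
    linarith
  intro X hX
  have hX1 : (1 : ℝ) ≤ X := by exact_mod_cast hX
  have hX0 : (0 : ℝ) < X := by linarith
  set Z : ℕ := ⌊(X : ℝ) ^ η⌋₊ with hZ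
  have hZη : (Z : ℝ) ≤ (X : ℝ) ^ η := Nat.floor_le (by positivity)
  have hηX : (X : ℝ) ^ η ≤ X := by
    calc (X : ℝ) ^ η ≤ (X : ℝ) ^ (1 : ℝ) := Real.rpow_le_rpow_of_exponent_le hX1 hη1
      _ = X := Real.rpow_one _
  set Y : ℕ := ⌊(X : ℝ) ^ (1 / (T : ℝ))⌋₊ with hY
  have hYT : (Y : ℝ) ≤ (X : ℝ) ^ (1 / (T : ℝ)) := Nat.floor_le (by positivity)
  set A := (⋃ q ∈ (Finset.univ : Finset (Fin 3)) ×ˢ ((PV Z X ×ˢ PV Y X) ∪ (PV Y X ×ˢ PV Z X)),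
    {rs q.1 q.2}) with hA
  set B := (⋃ q ∈ ((Finset.univ : Finset (Fin 3)) ×ˢ (Finset.Ico 2 T ×ˢ Finset.Ico 2 T)) ×ˢ PR Z X,
        (fun x => rd q.1.1 (q.2.1 ^ q.2.2) (x ^ q.1.2.1)) ''
          SX (q.2.1 ^ q.2.2) q.1.2.1 q.1.2.2 X) with hB
  have hcov : Sol Z X ⊆ A ∪ B := cover hT
  have hAf : A.Finite := Set.Finite.biUnion (Finset.finite_toSet _) (fun q _ => Set.finite_singleton _)
  have hSXb : ∀ q ∈ ((Finset.univ : Finset (Fin 3)) ×ˢ (Finset.Ico 2 T ×ˢ Finset.Ico 2 T)) ×ˢ PR Z X,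
      (SX (q.2.1 ^ q.2.2) q.1.2.1 q.1.2.2 X).Finite ∧
      (((SX (q.2.1 ^ q.2.2) q.1.2.1 q.1.2.2 X).ncard : ℕ) : ℝ) ≤
        Cm * (X : ℝ) ^ (η * (T - 2) / 2) * (X : ℝ) ^ δ := by
    intro q hq
    rw [Finset.mem_product, Finset.mem_product, Finset.mem_product] at hq
    obtain ⟨h1, h2, h3⟩ := mem_PR hq.2
    have h2' : (q.2.1 : ℝ) ≤ (X : ℝ) ^ η := le_trans (by exact_mod_cast h2) hZη
    obtain ⟨h5, h6⟩ := hmain q.1.2.1 hq.1.2.1 q.1.2.2 hq.1.2.2 q.2.1 q.2.2 h1 X hX1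
      (h2'.trans hηX) (by exact_mod_cast h3)
    refine ⟨h5, h6.trans ?_⟩
    apply mul_le_mul_of_nonneg_right _ (Real.rpow_pos_of_pos hX0 _).le
    apply mul_le_mul_of_nonneg_left _ (by linarith)
    have h7 := Finset.mem_Ico.1 hq.1.2.1
    have h8 : (2 : ℝ) ≤ (q.1.2.1 : ℝ) := by exact_mod_cast h7.1
    have h9 : ((q.1.2.1 : ℕ) : ℝ) + 1 ≤ T := by exact_mod_cast h7.2
    calc (q.2.1 : ℝ) ^ (((q.1.2.1 : ℝ) - 1) / 2)
        ≤ ((X : ℝ) ^ η) ^ (((q.1.2.1 : ℝ) - 1) / 2) :=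
          Real.rpow_le_rpow (Nat.cast_nonneg _) h2' (by linarith)
      _ = (X : ℝ) ^ (η * (((q.1.2.1 : ℝ) - 1) / 2)) := by
          rw [← Real.rpow_mul hX0.le]
      _ ≤ (X : ℝ) ^ (η * (T - 2) / 2) := by
          apply Real.rpow_le_rpow_of_exponent_le hX1
          rw [mul_div_assoc]
          apply mul_le_mul_of_nonneg_left _ hη.le
          linarith
  have hBf : B.Finite := Set.Finite.biUnion (Finset.finite_toSet _)
    (fun q hq => (hSXb q hq).1.image _)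
  refine ⟨(hAf.union hBf).subset hcov, ?_⟩
  have hPR : ∀ (M : ℕ) (e : ℝ), (M : ℝ) ≤ (X : ℝ) ^ e →
      ((PR M X).card : ℝ) ≤ Cl * (X : ℝ) ^ (e + δ) := by
    intro M e hM
    have h0 : ((PR M X).card : ℝ) ≤ (M : ℝ) * ((Nat.log 2 X + 1 : ℕ) : ℝ) := by
      exact_mod_cast PR_card M X
    refine h0.trans ?_
    calc (M : ℝ) * ((Nat.log 2 X + 1 : ℕ) : ℝ) ≤ (X : ℝ) ^ e * (Cl * (X : ℝ) ^ δ) :=
          mul_le_mul hM (hlog X hX) (Nat.cast_nonneg _) (by positivity)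
      _ = Cl * (X : ℝ) ^ (e + δ) := by rw [Real.rpow_add hX0]; ring
  -- sparse part
  have hAc : (A.ncard : ℝ) ≤ 6 * Cl ^ 2 * (X : ℝ) ^ (η + 1 / (T : ℝ) + 2 * δ) := by
    have h1 : A.ncard ≤ 6 * ((PV Z X).card * (PV Y X).card) := by
      calc A.ncard ≤ ∑ q ∈ (Finset.univ : Finset (Fin 3)) ×ˢ
            ((PV Z X ×ˢ PV Y X) ∪ (PV Y X ×ˢ PV Z X)),
            ({rs q.1 q.2} : Set (ℕ × ℕ × ℕ)).ncard := Finset.set_ncard_biUnion_le _ _
        _ = 3 * ((PV Z X ×ˢ PV Y X) ∪ (PV Y X ×ˢ PV Z X)).card := by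
            rw [Finset.sum_congr rfl (fun q _ => Set.ncard_singleton (rs q.1 q.2)),
              Finset.sum_const, smul_eq_mul, mul_one, Finset.card_product, Finset.card_univ,
              Fintype.card_fin]
        _ ≤ 3 * ((PV Z X ×ˢ PV Y X).card + (PV Y X ×ˢ PV Z X).card) :=
            Nat.mul_le_mul_left _ (Finset.card_union_le _ _)
        _ = 6 * ((PV Z X).card * (PV Y X).card) := by
            rw [Finset.card_product, Finset.card_product]; ring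
    have h2 : ((PV Z X).card : ℝ) ≤ Cl * (X : ℝ) ^ (η + δ) := by
      refine le_trans ?_ (hPR Z η hZη)
      exact_mod_cast Finset.card_image_le
    have h3 : ((PV Y X).card : ℝ) ≤ Cl * (X : ℝ) ^ (1 / (T : ℝ) + δ) := by
      refine le_trans ?_ (hPR Y (1 / (T : ℝ)) hYT)
      exact_mod_cast Finset.card_image_le
    calc (A.ncard : ℝ) ≤ 6 * (((PV Z X).card : ℝ) * (PV Y X).card) := by exact_mod_cast h1
      _ ≤ 6 * ((Cl * (X : ℝ) ^ (η + δ)) * (Cl * (X : ℝ) ^ (1 / (T : ℝ) + δ))) := by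
          apply mul_le_mul_of_nonneg_left _ (by norm_num)
          exact mul_le_mul h2 h3 (Nat.cast_nonneg _) (by positivity)
      _ = 6 * Cl ^ 2 * ((X : ℝ) ^ (η + δ) * (X : ℝ) ^ (1 / (T : ℝ) + δ)) := by ring
      _ = 6 * Cl ^ 2 * (X : ℝ) ^ (η + 1 / (T : ℝ) + 2 * δ) := by
          rw [← Real.rpow_add hX0]; congr 2; ring
  -- main part
  have hBc : (B.ncard : ℝ) ≤ 3 * (T : ℝ) ^ 2 * Cl * Cm *
      (if 3 ≤ T then (X : ℝ) ^ (η * T / 2 + 2 * δ) else 0) := by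
    set E : ℝ := Cm * (X : ℝ) ^ (η * (T - 2) / 2) * (X : ℝ) ^ δ with hE
    have hE0 : 0 ≤ E := by positivity
    have h1 : (B.ncard : ℝ) ≤
        ∑ q ∈ ((Finset.univ : Finset (Fin 3)) ×ˢ (Finset.Ico 2 T ×ˢ Finset.Ico 2 T)) ×ˢ PR Z X, E := by
      calc (B.ncard : ℝ) ≤ ((∑ q ∈ ((Finset.univ : Finset (Fin 3)) ×ˢ
            (Finset.Ico 2 T ×ˢ Finset.Ico 2 T)) ×ˢ PR Z X,
            ((fun x => rd q.1.1 (q.2.1 ^ q.2.2) (x ^ q.1.2.1)) ''
          SX (q.2.1 ^ q.2.2) q.1.2.1 q.1.2.2 X).ncard : ℕ) : ℝ) := by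
            exact_mod_cast Finset.set_ncard_biUnion_le _ _
        _ = ∑ q ∈ ((Finset.univ : Finset (Fin 3)) ×ˢ
            (Finset.Ico 2 T ×ˢ Finset.Ico 2 T)) ×ˢ PR Z X,
            ((((fun x => rd q.1.1 (q.2.1 ^ q.2.2) (x ^ q.1.2.1)) ''
          SX (q.2.1 ^ q.2.2) q.1.2.1 q.1.2.2 X).ncard : ℕ) : ℝ) := by push_cast; rfl
        _ ≤ _ := by
            apply Finset.sum_le_sum
            intro q hq
            obtain ⟨h2, h3⟩ := hSXb q hq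
            refine le_trans ?_ h3
            exact_mod_cast Set.ncard_image_le h2
    rw [Finset.sum_const, nsmul_eq_mul, Finset.card_product, Finset.card_product,
      Finset.card_product, Nat.card_Ico, Finset.card_univ, Fintype.card_fin] at h1
    split_ifs with h3T
    · refine h1.trans ?_
      have h4 : ((T - 2 : ℕ) : ℝ) ≤ T := by exact_mod_cast Nat.sub_le _ _
      have h5 := hPR Z η hZη
      push_cast
      calc 3 * (((T - 2 : ℕ) : ℝ) * ((T - 2 : ℕ) : ℝ)) * ((PR Z X).card : ℝ) * E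
          ≤ 3 * ((T : ℝ) * T) * (Cl * (X : ℝ) ^ (η + δ)) * E := by
            apply mul_le_mul_of_nonneg_right _ hE0
            apply mul_le_mul _ h5 (Nat.cast_nonneg _) (by positivity)
            apply mul_le_mul_of_nonneg_left _ (by norm_num)
            exact mul_le_mul h4 h4 (Nat.cast_nonneg _) hT0.le
        _ = 3 * (T : ℝ) ^ 2 * Cl * Cm * ((X : ℝ) ^ (η + δ) *
            ((X : ℝ) ^ (η * (T - 2) / 2) * (X : ℝ) ^ δ)) := by rw [hE]; ring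
        _ = 3 * (T : ℝ) ^ 2 * Cl * Cm * (X : ℝ) ^ (η * T / 2 + 2 * δ) := by
            rw [← Real.rpow_add hX0, ← Real.rpow_add hX0]; congr 2; ring
    · have h4 : T - 2 = 0 := by omega
      rw [h4] at h1
      simpa using h1
  have hnc : ((Sol Z X).ncard : ℝ) ≤ A.ncard + B.ncard := by
    have h1 := Set.ncard_le_ncard hcov (hAf.union hBf)
    have h2 := Set.ncard_union_le A B
    exact_mod_cast h1.trans h2
  set U : ℝ := (X : ℝ) ^ (η + 1 / (T : ℝ) + 2 * δ) with hU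
  set V : ℝ := (if 3 ≤ T then (X : ℝ) ^ (η * T / 2 + 2 * δ) else 0) with hV
  have hU0 : 0 ≤ U := by positivity
  have hV0 : 0 ≤ V := by rw [hV]; split_ifs <;> positivity
  calc ((Sol Z X).ncard : ℝ) ≤ 6 * Cl ^ 2 * U + 3 * (T : ℝ) ^ 2 * Cl * Cm * V := by linarith
    _ ≤ (6 * Cl ^ 2 + 3 * (T : ℝ) ^ 2 * Cl * Cm) * (U + V) := by
        have e1 : 0 ≤ 6 * Cl ^ 2 * V := by positivity
        have e2 : 0 ≤ 3 * (T : ℝ) ^ 2 * Cl * Cm * U := by positivity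
        nlinarith

/-- The count with the optimal choice of `T`. -/
theorem final (η ε : ℝ) (hη : 0 < η) (hη1 : η ≤ 1) (hε : 0 < ε) :
    ∃ C : ℝ, 1 ≤ C ∧ ∀ X : ℕ, 1 ≤ X → (Sol ⌊(X : ℝ) ^ η⌋₊ X).Finite ∧
      (((Sol ⌊(X : ℝ) ^ η⌋₊ X).ncard : ℕ) : ℝ) ≤ C * (X : ℝ) ^ (Real.sqrt (η / 2) + η + ε) := by
  set w : ℝ := Real.sqrt (2 / η) with hw
  have hw2 : w ^ 2 = 2 / η := Real.sq_sqrt (by positivity)
  have hw0 : 0 < w := Real.sqrt_pos.2 (by positivity)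
  have hw1 : 1 < w := by
    rw [hw, Real.lt_sqrt (by norm_num)]
    rw [lt_div_iff₀ hη]; linarith
  have hηw : η * w ^ 2 = 2 := by rw [hw2]; field_simp
  have hsq : Real.sqrt (η / 2) = 1 / w := by
    rw [Real.sqrt_eq_iff_mul_self_eq (by positivity) (by positivity)]
    rw [div_mul_div_comm, one_mul, ← sq, hw2]
    field_simp
  set T : ℕ := ⌈w⌉₊ with hT
  have hT1 : w ≤ T := Nat.le_ceil _
  have hT2 : (T : ℝ) < w + 1 := Nat.ceil_lt_add_one hw0.le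
  have hT3 : 2 ≤ T := by
    have : (1 : ℝ) < T := lt_of_lt_of_le hw1 hT1
    have : 1 < T := by exact_mod_cast this
    omega
  obtain ⟨C, hC, h⟩ := count T hT3 η hη hη1 (ε / 2) (by positivity)
  refine ⟨2 * C, by linarith, ?_⟩
  intro X hX
  obtain ⟨h1, h2⟩ := h X hX
  refine ⟨h1, h2.trans ?_⟩
  have hX1 : (1 : ℝ) ≤ X := by exact_mod_cast hX
  have hX0 : (0 : ℝ) < X := by linarith
  have e1 : (X : ℝ) ^ (η + 1 / (T : ℝ) + 2 * (ε / 2)) ≤ (X : ℝ) ^ (Real.sqrt (η / 2) + η + ε) := by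
    apply Real.rpow_le_rpow_of_exponent_le hX1
    rw [hsq]
    have : 1 / (T : ℝ) ≤ 1 / w := one_div_le_one_div_of_le hw0 hT1
    linarith
  have e2 : (if 3 ≤ T then (X : ℝ) ^ (η * T / 2 + 2 * (ε / 2)) else 0) ≤
      (X : ℝ) ^ (Real.sqrt (η / 2) + η + ε) := by
    split_ifs
    · apply Real.rpow_le_rpow_of_exponent_le hX1
      rw [hsq]
      have h3 : η * w / 2 = 1 / w := by
        rw [div_eq_div_iff (by norm_num) hw0.ne']
        nlinarith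
      have h4 : η * T ≤ η * (w + 1) := mul_le_mul_of_nonneg_left hT2.le hη.le
      nlinarith
    · positivity
  have hC0 : 0 ≤ C := by linarith
  calc C * ((X : ℝ) ^ (η + 1 / (T : ℝ) + 2 * (ε / 2)) +
        (if 3 ≤ T then (X : ℝ) ^ (η * T / 2 + 2 * (ε / 2)) else 0))
      ≤ C * ((X : ℝ) ^ (Real.sqrt (η / 2) + η + ε) + (X : ℝ) ^ (Real.sqrt (η / 2) + η + ε)) :=
        mul_le_mul_of_nonneg_left (add_le_add e1 e2) hC0
    _ = 2 * C * (X : ℝ) ^ (Real.sqrt (η / 2) + η + ε) := by ring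

end Pool.Agent.Work.MP_2738db_nt_helper84
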