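import Pool.Agent.Work.MP_2738db_nt_helper84.Count

/-! The box principle: every nonzero ideal contains a nonzero element of small norm, where
the size is measured by any full-rank family of integers with bounded conjugates. -/

namespace Pool.Agent.Work.MP_2738db_nt_helper84

open NumberField

variable {K : Type} [Field K] [NumberField K]

theorem box {ι : Type} [Fintype ι] (hι : Fintype.card ι = Module.finrank ℚ K)
    (b : ι → 𝓞 K) (hb : LinearIndependent ℤ b) (H : ι → ℝ) (hH : ∀ i, 0 < H i)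
    (hbH : ∀ i, ∀ φ : K →+* ℂ, ‖φ (b i : K)‖ ≤ H i) (I : Ideal (𝓞 K)) (hI : I ≠ ⊥) :
    ∃ β ∈ I, β ≠ 0 ∧ (Ideal.absNorm (Ideal.span {β}) : ℝ) ≤
      (Module.finrank ℚ K : ℝ) ^ (Module.finrank ℚ K) * (∏ i, H i) * Ideal.absNorm I := by
  classical
  set d := Module.finrank ℚ K with hd
  have hd0 : d ≠ 0 := (Module.finrank_pos (R := ℚ) (M := K)).ne'
  have hnI : 0 < Ideal.absNorm I := by
    apply Nat.pos_of_ne_zero
    rw [Ne, Ideal.absNorm_eq_zero_iff]; exact hI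
  have hnIR : (0 : ℝ) < Ideal.absNorm I := by exact_mod_cast hnI
  have hHp : 0 < ∏ i, H i := Finset.prod_pos (fun i _ => hH i)
  -- the scale
  set P : ℝ := (∏ i, H i) * Ideal.absNorm I with hP
  have hPpos : 0 < P := by positivity
  set lam : ℝ := P ^ (1 / (d : ℝ)) with hlam
  have hlam0 : 0 < lam := Real.rpow_pos_of_pos hPpos _
  have hlamd : lam ^ d = P := by
    rw [hlam, ← Real.rpow_natCast, ← Real.rpow_mul hPpos.le,
      one_div_mul_cancel (by exact_mod_cast hd0), Real.rpow_one]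
  let T : ι → ℕ := fun i => ⌊lam / H i⌋₊
  have hT1 : ∀ i, ((T i : ℕ) : ℝ) * H i ≤ lam := by
    intro i
    have h1 : ((T i : ℕ) : ℝ) ≤ lam / H i := Nat.floor_le (div_nonneg hlam0.le (hH i).le)
    rwa [le_div_iff₀ (hH i)] at h1
  have hT2 : ∀ i, lam / H i < ((T i : ℕ) : ℝ) + 1 := fun i => Nat.lt_floor_add_one _
  have hfin : Finite (𝓞 K ⧸ I) := Ideal.finiteQuotientOfFreeOfNeBot I hI
  let _ : Fintype (𝓞 K ⧸ I) := Fintype.ofFinite _
  let F : ((i : ι) → Fin (T i + 1)) → 𝓞 K ⧸ I := fun c =>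
    Ideal.Quotient.mk I (∑ i, (((c i : ℕ) : ℤ)) • b i)
  have hne : Nonempty ι := by
    rw [← Fintype.card_pos_iff, hι]; omega
  have hcard : Fintype.card (𝓞 K ⧸ I) < Fintype.card ((i : ι) → Fin (T i + 1)) := by
    rw [Fintype.card_pi, ← Nat.card_eq_fintype_card]
    have h0 : Nat.card (𝓞 K ⧸ I) = Ideal.absNorm I := by rw [Ideal.absNorm_apply]; rfl
    rw [h0]
    have h1 : (Ideal.absNorm I : ℝ) < ∏ i, (((T i : ℕ) : ℝ) + 1) := by
      calc (Ideal.absNorm I : ℝ) = ∏ i, (lam / H i) := by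
            rw [Finset.prod_div_distrib, Finset.prod_const, Finset.card_univ, hι, hlamd, hP]
            field_simp
        _ < ∏ i, (((T i : ℕ) : ℝ) + 1) := by
            apply Finset.prod_lt_prod_of_nonempty
            · intro i _; exact div_pos hlam0 (hH i)
            · intro i _; exact hT2 i
            · exact Finset.univ_nonempty
    have h2 : ∏ i, (((T i : ℕ) : ℝ) + 1) = ((∏ i, Fintype.card (Fin (T i + 1)) : ℕ) : ℝ) := by
      push_cast
      simp
    rw [h2] at h1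
    exact_mod_cast h1
  obtain ⟨c, c', hne', hcc⟩ := Fintype.exists_ne_map_eq_of_card_lt F hcard
  set β : 𝓞 K := ∑ i, (((c i : ℕ) : ℤ) - ((c' i : ℕ) : ℤ)) • b i with hβ
  have hβ' : β = (∑ i, (((c i : ℕ) : ℤ)) • b i) - ∑ i, (((c' i : ℕ) : ℤ)) • b i := by
    rw [hβ, ← Finset.sum_sub_distrib]
    apply Finset.sum_congr rfl
    intro i _
    rw [sub_smul]
  refine ⟨β, ?_, ?_, ?_⟩
  · rw [hβ']
    exact (Ideal.Quotient.eq (I := I)).1 hcc
  · intro h0
    have := Fintype.linearIndependent_iff.1 hb (fun i => ((c i : ℕ) : ℤ) - ((c' i : ℕ) : ℤ)) h0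
    apply hne'
    funext i
    have h1 := this i
    apply Fin.ext
    omega
  · have hconj : ∀ φ : K →+* ℂ, ‖φ (β : K)‖ ≤ (d : ℝ) * lam := by
      intro φ
      have h1 : φ (β : K) = ∑ i, ((((c i : ℕ) : ℤ) - ((c' i : ℕ) : ℤ) : ℤ) : ℂ) * φ (b i : K) := by
        rw [hβ]
        simp [map_sum]
      rw [h1]
      calc ‖∑ i, ((((c i : ℕ) : ℤ) - ((c' i : ℕ) : ℤ) : ℤ) : ℂ) * φ (b i : K)‖
          ≤ ∑ i, ‖((((c i : ℕ) : ℤ) - ((c' i : ℕ) : ℤ) : ℤ) : ℂ) * φ (b i : K)‖ :=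
            norm_sum_le _ _
        _ ≤ ∑ i : ι, lam := by
            apply Finset.sum_le_sum
            intro i _
            rw [norm_mul]
            refine le_trans ?_ (hT1 i)
            apply mul_le_mul _ (hbH i φ) (norm_nonneg _) (Nat.cast_nonneg _)
            rw [Complex.norm_intCast]
            have h2 := (c i).2
            have h3 := (c' i).2
            have h4 : |((c i : ℕ) : ℤ) - ((c' i : ℕ) : ℤ)| ≤ (T i : ℤ) := by
              rw [abs_le]; constructor <;> omega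
            exact_mod_cast h4
        _ = (d : ℝ) * lam := by
            rw [Finset.sum_const, Finset.card_univ, hι, nsmul_eq_mul]
    rw [absNorm_span_eq]
    calc ∏ φ : K →+* ℂ, ‖φ (β : K)‖ ≤ ∏ φ : K →+* ℂ, ((d : ℝ) * lam) :=
          Finset.prod_le_prod (fun _ _ => norm_nonneg _) (fun φ _ => hconj φ)
      _ = (d : ℝ) ^ d * lam ^ d := by
          rw [Finset.prod_const, Finset.card_univ, NumberField.Embeddings.card K ℂ, ← hd, mul_pow]
      _ = (d : ℝ) ^ d * (∏ i, H i) * Ideal.absNorm I := by rw [hlamd, hP]; ring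

theorem box' {ι : Type} [Fintype ι] (hι : Fintype.card ι = Module.finrank ℚ K)
    (b : ι → 𝓞 K) (hb : LinearIndependent ℤ b) (H : ι → ℝ) (hH : ∀ i, 0 < H i)
    (hbH : ∀ i, ∀ φ : K →+* ℂ, ‖φ (b i : K)‖ ≤ H i) (B : ℕ)
    (hB : (Module.finrank ℚ K : ℝ) ^ (Module.finrank ℚ K) * (∏ i, H i) ≤ B)
    (I : Ideal (𝓞 K)) (hI : I ≠ ⊥) :
    ∃ β : 𝓞 K, β ≠ 0 ∧ ∃ J : Ideal (𝓞 K), Ideal.span {β} = I * J ∧ 1 ≤ Ideal.absNorm J ∧
      Ideal.absNorm J ≤ B := by
  obtain ⟨β, hβI, hβ0, hβn⟩ := box hι b hb H hH hbH I hI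
  have h1 : I ∣ Ideal.span {β} := Ideal.dvd_span_singleton.2 hβI
  obtain ⟨J, hJ⟩ := h1
  have hn : Ideal.absNorm (Ideal.span {β}) ≠ 0 := by
    rw [Ne, Ideal.absNorm_eq_zero_iff, Ideal.span_singleton_eq_bot]; exact hβ0
  rw [hJ, map_mul] at hn
  have hI0 : 0 < Ideal.absNorm I := Nat.pos_of_ne_zero (left_ne_zero_of_mul hn)
  have hJ0 : Ideal.absNorm J ≠ 0 := right_ne_zero_of_mul hn
  refine ⟨β, hβ0, J, hJ, Nat.one_le_iff_ne_zero.2 hJ0, ?_⟩
  rw [hJ, map_mul] at hβn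
  have h2 : ((Ideal.absNorm I * Ideal.absNorm J : ℕ) : ℝ) ≤ ((B * Ideal.absNorm I : ℕ) : ℝ) := by
    push_cast at hβn ⊢
    refine hβn.trans ?_
    exact mul_le_mul_of_nonneg_right hB (Nat.cast_nonneg _)
  have h3 : Ideal.absNorm I * Ideal.absNorm J ≤ B * Ideal.absNorm I := by exact_mod_cast h2
  rw [mul_comm] at h3
  exact Nat.le_of_mul_le_mul_right h3 hI0

end Pool.Agent.Work.MP_2738db_nt_helper84
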