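import Pool.Agent.Work.MP_2738db_nt_helper84.Box

/-! Power classes: the number of classes modulo `t`-th powers of the algebraic integers whose
principal ideal is a `t`-th power up to a divisor of a fixed ideal. -/

namespace Pool.Agent.Work.MP_2738db_nt_helper84

open NumberField UniqueFactorizationMonoid

variable {K : Type} [Field K] [NumberField K]

theorem torsion_card {N : ℕ}
    (hN : {a : 𝓞 K | ∀ φ : K →+* ℂ, ‖φ (a : K)‖ ≤ 2}.Finite ∧
      {a : 𝓞 K | ∀ φ : K →+* ℂ, ‖φ (a : K)‖ ≤ 2}.ncard ≤ N) :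
    Nat.card (Units.torsion K) ≤ N := by
  classical
  let f : Units.torsion K → 𝓞 K := fun ζ => ((ζ : (𝓞 K)ˣ) : 𝓞 K)
  have hf : Function.Injective f := by
    intro a b h
    exact Subtype.ext (Units.ext h)
  have h1 : (Set.range f).ncard = Nat.card (Units.torsion K) := by
    rw [← Set.image_univ, Set.ncard_image_of_injective _ hf, Set.ncard_univ]
  rw [← h1]
  refine (Set.ncard_le_ncard ?_ hN.1).trans hN.2
  rintro _ ⟨ζ, rfl⟩ φ
  have h2 := (Units.mem_torsion K).1 ζ.2 (InfinitePlace.mk φ)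
  rw [InfinitePlace.apply] at h2
  show ‖φ (((ζ : (𝓞 K)ˣ) : 𝓞 K) : K)‖ ≤ 2
  rw [h2]; norm_num

theorem rank_le : Units.rank K ≤ Module.finrank ℚ K := by
  have h1 := InfinitePlace.card_add_two_mul_card_eq_rank K
  have h2 := InfinitePlace.card_eq_nrRealPlaces_add_nrComplexPlaces K
  unfold Units.rank
  omega

theorem unit_reps {N : ℕ}
    (hN : {a : 𝓞 K | ∀ φ : K →+* ℂ, ‖φ (a : K)‖ ≤ 2}.Finite ∧
      {a : 𝓞 K | ∀ φ : K →+* ℂ, ‖φ (a : K)‖ ≤ 2}.ncard ≤ N) (t : ℕ) (ht : 1 ≤ t) :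
    ∃ R : Finset (𝓞 K)ˣ, R.card ≤ N * t ^ (Module.finrank ℚ K) ∧
      ∀ ε : (𝓞 K)ˣ, ∃ ρ ∈ R, ∃ η : (𝓞 K)ˣ, ε = ρ * η ^ t := by
  classical
  have : Finite (Units.torsion K) := inferInstance
  let _ : Fintype (Units.torsion K) := Fintype.ofFinite _
  let g : Units.torsion K × (Fin (Units.rank K) → Fin t) → (𝓞 K)ˣ := fun p =>
    (p.1 : (𝓞 K)ˣ) * ∏ i, Units.fundSystem K i ^ ((p.2 i : ℕ) : ℤ)
  refine ⟨Finset.univ.image g, ?_, ?_⟩
  · refine Finset.card_image_le.trans ?_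
    rw [Finset.card_univ, Fintype.card_prod, Fintype.card_fun, Fintype.card_fin, Fintype.card_fin,
      ← Nat.card_eq_fintype_card]
    exact Nat.mul_le_mul (torsion_card hN) (Nat.pow_le_pow_right ht rank_le)
  · intro ε
    obtain ⟨ζe, hζe, -⟩ := Units.exist_unique_eq_mul_prod K ε
    have htz : (0 : ℤ) < t := by exact_mod_cast ht
    have hlt : ∀ i, (ζe.2 i % (t : ℤ)).toNat < t := by
      intro i
      have h1 := Int.emod_nonneg (ζe.2 i) htz.ne'
      have h2 := Int.emod_lt_of_pos (ζe.2 i) htz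
      omega
    refine ⟨g (ζe.1, fun i => ⟨(ζe.2 i % (t : ℤ)).toNat, hlt i⟩), Finset.mem_image_of_mem _ (Finset.mem_univ _),
      ∏ i, Units.fundSystem K i ^ (ζe.2 i / (t : ℤ)), ?_⟩
    rw [hζe]
    simp only [g]
    rw [mul_assoc, ← Finset.prod_pow, ← Finset.prod_mul_distrib]
    congr 1
    apply Finset.prod_congr rfl
    intro i _
    rw [← zpow_natCast, ← zpow_mul, ← zpow_add]
    congr 1
    have h1 := Int.emod_nonneg (ζe.2 i) htz.ne'
    rw [Int.toNat_of_nonneg h1]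
    have := Int.emod_add_mul_ediv (ζe.2 i) (t : ℤ)
    linarith [mul_comm (t : ℤ) (ζe.2 i / (t : ℤ))]

theorem ideal_split (Q : 𝓞 K) (I J Y : Ideal (𝓞 K)) (t : ℕ) (ht : 1 ≤ t)
    (hIJ : I * J = Y ^ t) (hI : I ≠ ⊥) (hJ : J ≠ ⊥)
    (hcop : ∀ P : Ideal (𝓞 K), P.IsPrime → I ≤ P → J ≤ P → Q ∈ P) :
    ∃ B A : Ideal (𝓞 K), I = B * A ^ t ∧ Ideal.span {Q ^ t} ≤ B := by
  classical
  have hI0 : I ≠ 0 := hI
  have hJ0 : J ≠ 0 := hJ
  set s := normalizedFactors I with hs
  have hprimes : ∀ P ∈ s.toFinset, Prime P := by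
    intro P hP
    exact prime_of_normalized_factor P (Multiset.mem_toFinset.1 hP)
  have hprod : I = ∏ P ∈ s.toFinset, P ^ s.count P := by
    have h1 : s.prod = I := by
      have := prod_normalizedFactors_eq (a := I) hI0
      simpa using this
    conv_lhs => rw [← h1]
    exact Finset.prod_multiset_count s
  refine ⟨∏ P ∈ s.toFinset, P ^ (s.count P % t), ∏ P ∈ s.toFinset, P ^ (s.count P / t), ?_, ?_⟩
  · rw [← Finset.prod_pow, ← Finset.prod_mul_distrib]
    conv_lhs => rw [hprod]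
    apply Finset.prod_congr rfl
    intro P _
    rw [← pow_mul, ← pow_add]
    congr 1
    rw [mul_comm (s.count P / t) t]
    exact (Nat.mod_add_div _ _).symm
  · rw [← Ideal.dvd_iff_le]
    apply Finset.prod_dvd_of_coprime
    · intro P hP P' hP' hne
      have h1 := hprimes P hP
      have h2 := hprimes P' hP'
      apply IsCoprime.pow
      rw [Ideal.isCoprime_iff_sup_eq]
      have m1 : P.IsMaximal := (Ideal.isPrime_of_prime h1).isMaximal h1.ne_zero
      have m2 : P'.IsMaximal := (Ideal.isPrime_of_prime h2).isMaximal h2.ne_zero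
      exact Ideal.IsMaximal.coprime_of_ne m1 m2 hne
    · intro P hP
      have hpr := hprimes P hP
      by_cases hcnt : s.count P % t = 0
      · rw [hcnt, pow_zero]; exact one_dvd _
      · -- then `Q ∈ P`
        have hIP : I ≤ P := by
          rw [← Ideal.dvd_iff_le]
          exact dvd_of_mem_normalizedFactors (Multiset.mem_toFinset.1 hP)
        have hQ : Q ∈ P := by
          apply hcop P (Ideal.isPrime_of_prime hpr) hIP
          by_contra hJP
          have hJd : ¬ P ∣ J := by rwa [Ideal.dvd_iff_le]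
          have hJc : (normalizedFactors J).count P = 0 := by
            rw [Multiset.count_eq_zero]
            intro h
            exact hJd (dvd_of_mem_normalizedFactors h)
          have h1 : normalizedFactors (I * J) = normalizedFactors I + normalizedFactors J :=
            normalizedFactors_mul hI0 hJ0
          have h2 : normalizedFactors (Y ^ t) = t • normalizedFactors Y :=
            normalizedFactors_pow t
          rw [hIJ, h2] at h1
          have h3 := congrArg (Multiset.count P) h1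
          rw [Multiset.count_nsmul, Multiset.count_add, hJc, add_zero] at h3
          apply hcnt
          rw [← h3]
          exact Nat.mul_mod_right _ _
        have h4 : P ^ t ∣ Ideal.span {Q ^ t} := by
          rw [← Ideal.span_singleton_pow]
          exact pow_dvd_pow_of_dvd (Ideal.dvd_span_singleton.2 hQ) t
        exact (pow_dvd_pow P (Nat.mod_lt _ ht).le).trans h4

theorem power_classes {N : ℕ}
    (hN : {a : 𝓞 K | ∀ φ : K →+* ℂ, ‖φ (a : K)‖ ≤ 2}.Finite ∧
      {a : 𝓞 K | ∀ φ : K →+* ℂ, ‖φ (a : K)‖ ≤ 2}.ncard ≤ N) (t : ℕ) (ht : 1 ≤ t)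
    (Q : Ideal (𝓞 K)) (hQ : Q ≠ ⊥) (B M : ℕ)
    (hM : {J : Ideal (𝓞 K) | 1 ≤ Ideal.absNorm J ∧ Ideal.absNorm J ≤ B}.ncard ≤ M)
    (hbox : ∀ I : Ideal (𝓞 K), I ≠ ⊥ → ∃ β : 𝓞 K, β ≠ 0 ∧ ∃ J : Ideal (𝓞 K),
      Ideal.span {β} = I * J ∧ 1 ≤ Ideal.absNorm J ∧ Ideal.absNorm J ≤ B) :
    ∃ F : Finset (𝓞 K),
      F.card ≤ Ideal.absNorm Q * M * (N * t ^ (Module.finrank ℚ K)) ∧
      (∀ f ∈ F, f ≠ 0) ∧
      ∀ A : 𝓞 K, A ≠ 0 → (∃ I J : Ideal (𝓞 K), Ideal.span {A} = I * J ^ t ∧ Q ≤ I) →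
        ∃ f ∈ F, ∃ β β' : 𝓞 K, β ≠ 0 ∧ β' ≠ 0 ∧ A * β' ^ t = f * β ^ t := by
  classical
  obtain ⟨R, hRc, hR⟩ := unit_reps hN t ht
  obtain ⟨hQf, hQc⟩ := ideals_ge Q hQ
  have hBf := (ideals_norm_le (K := K) B).1
  set T1 := hQf.toFinset with hT1
  set T2 := hBf.toFinset with hT2
  let P : Ideal (𝓞 K) × Ideal (𝓞 K) → 𝓞 K × 𝓞 K → Prop := fun p q =>
    q.1 ≠ 0 ∧ q.2 ≠ 0 ∧ Ideal.span {q.1} * p.2 ^ t = p.1 * Ideal.span {q.2 ^ t}
  let base : Ideal (𝓞 K) × Ideal (𝓞 K) → 𝓞 K × 𝓞 K := fun p =>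
    if h : ∃ q, P p q then h.choose else (1, 1)
  have hbase : ∀ p, (base p).1 ≠ 0 ∧ (base p).2 ≠ 0 := by
    intro p
    by_cases h : ∃ q, P p q
    · have h1 : base p = h.choose := dif_pos h
      rw [h1]
      exact ⟨h.choose_spec.1, h.choose_spec.2.1⟩
    · have h1 : base p = (1, 1) := dif_neg h
      rw [h1]; exact ⟨one_ne_zero, one_ne_zero⟩
  let F : Finset (𝓞 K) := ((T1 ×ˢ T2) ×ˢ R).image (fun x => (x.2 : 𝓞 K) * (base x.1).1)
  refine ⟨F, ?_, ?_, ?_⟩
  · refine Finset.card_image_le.trans ?_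
    rw [Finset.card_product, Finset.card_product]
    apply Nat.mul_le_mul _ hRc
    apply Nat.mul_le_mul
    · rw [hT1, ← Set.ncard_eq_toFinset_card _ hQf]; exact hQc
    · rw [hT2, ← Set.ncard_eq_toFinset_card _ hBf]; exact hM
  · intro f hf
    obtain ⟨x, -, rfl⟩ := Finset.mem_image.1 hf
    exact mul_ne_zero (Units.ne_zero _) (hbase _).1
  · rintro A hA ⟨I, J, hIJ, hQI⟩
    have hspan : Ideal.span {A} ≠ ⊥ := by rw [Ne, Ideal.span_singleton_eq_bot]; exact hA
    have hI0 : I ≠ 0 := by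
      rintro rfl; rw [zero_mul] at hIJ; exact hspan hIJ
    have hJ0 : J ≠ ⊥ := by
      rintro rfl
      apply hspan
      rw [hIJ, ← Ideal.zero_eq_bot, zero_pow (by omega), mul_zero]
    obtain ⟨β, hβ0, C, hβ, hC1, hC2⟩ := hbox J hJ0
    have hrel : Ideal.span {A} * C ^ t = I * Ideal.span {β ^ t} := by
      rw [hIJ, ← Ideal.span_singleton_pow, hβ, mul_pow, mul_assoc]
    have hex : ∃ q, P (I, C) q := ⟨(A, β), hA, hβ0, hrel⟩
    have hb : base (I, C) = hex.choose := dif_pos hex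
    obtain ⟨h1, h2, h3⟩ := hex.choose_spec
    rw [← hb] at h1 h2 h3
    set A1 := (base (I, C)).1 with hA1
    set β1 := (base (I, C)).2 with hβ1
    have hC0 : C ^ t ≠ 0 := by
      apply pow_ne_zero
      rintro rfl
      rw [Ideal.zero_eq_bot, Ideal.absNorm_bot] at hC1
      omega
    have hspan2 : Ideal.span {A * β1 ^ t} = Ideal.span {A1 * β ^ t} := by
      have h4 : Ideal.span {A * β1 ^ t} * C ^ t = Ideal.span {A1 * β ^ t} * C ^ t := by
        rw [← Ideal.span_singleton_mul_span_singleton, ← Ideal.span_singleton_mul_span_singleton]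
        calc Ideal.span {A} * Ideal.span {β1 ^ t} * C ^ t
            = (Ideal.span {A} * C ^ t) * Ideal.span {β1 ^ t} := by ring
          _ = (I * Ideal.span {β1 ^ t}) * Ideal.span {β ^ t} := by rw [hrel]; ring
          _ = (Ideal.span {A1} * C ^ t) * Ideal.span {β ^ t} := by
              have : Ideal.span {A1} * C ^ t = I * Ideal.span {β1 ^ t} := h3
              rw [this]
          _ = Ideal.span {A1} * Ideal.span {β ^ t} * C ^ t := by ring
      exact mul_right_cancel₀ hC0 h4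
    rw [Ideal.span_singleton_eq_span_singleton] at hspan2
    obtain ⟨ε, hε⟩ := hspan2.symm
    obtain ⟨ρ, hρ, η, hη⟩ := hR ε
    refine ⟨(ρ : 𝓞 K) * A1, ?_, (η : 𝓞 K) * β, β1, mul_ne_zero (Units.ne_zero _) hβ0, h2, ?_⟩
    · apply Finset.mem_image.2
      refine ⟨((I, C), ρ), ?_, rfl⟩
      rw [Finset.mem_product, Finset.mem_product]
      refine ⟨⟨?_, ?_⟩, hρ⟩
      · rw [hT1, Set.Finite.mem_toFinset]; exact hQI
      · rw [hT2, Set.Finite.mem_toFinset]; exact ⟨hC1, hC2⟩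
    · rw [← hε, hη]
      push_cast
      ring

end Pool.Agent.Work.MP_2738db_nt_helper84
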