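import Mathlib

/-! A uniform Northcott property: the number of algebraic integers in a number field of degree
at most `D` with all conjugates of absolute value at most `2` is bounded in terms of `D`. -/

namespace Pool.Agent.Work.MP_2738db_nt_helper84

open NumberField Polynomial

theorem finite_polys (D : ℕ) (C : ℤ) :
    {f : ℤ[X] | f.natDegree ≤ D ∧ ∀ i, |f.coeff i| ≤ C}.Finite := by
  let F : ℤ[X] → (Fin (D + 1) → ℤ) := fun f i => f.coeff i
  have hmaps : F '' {f : ℤ[X] | f.natDegree ≤ D ∧ ∀ i, |f.coeff i| ≤ C} ⊆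
      Set.pi Set.univ (fun _ => Set.Icc (-C) C) := by
    rintro _ ⟨f, hf, rfl⟩ i _
    exact abs_le.1 (hf.2 i)
  have hfin : (Set.pi Set.univ (fun _ : Fin (D + 1) => Set.Icc (-C) C)).Finite :=
    Set.Finite.pi' (fun _ => Set.finite_Icc _ _) |>.subset (by
      intro x hx i; exact hx i (Set.mem_univ i))
  refine Set.Finite.of_finite_image (hfin.subset hmaps) ?_
  intro f hf g hg h
  ext i
  by_cases hi : i ≤ D
  · exact congrFun h ⟨i, by omega⟩
  · rw [coeff_eq_zero_of_natDegree_lt (by have := hf.1; omega),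
      coeff_eq_zero_of_natDegree_lt (by have := hg.1; omega)]

theorem northcott (D : ℕ) : ∃ N : ℕ, 1 ≤ N ∧ ∀ (K : Type) [Field K] [NumberField K],
    Module.finrank ℚ K ≤ D →
    {a : 𝓞 K | ∀ φ : K →+* ℂ, ‖φ (a : K)‖ ≤ 2}.Finite ∧
    {a : 𝓞 K | ∀ φ : K →+* ℂ, ‖φ (a : K)‖ ≤ 2}.ncard ≤ N := by
  classical
  set C : ℤ := 2 ^ D * 2 ^ D with hC
  have hfin := finite_polys D C
  set P := hfin.toFinset with hP
  refine ⟨∑ f ∈ P, D + 1, by omega, ?_⟩
  intro K _ _ hD
  have hsub : {a : 𝓞 K | ∀ φ : K →+* ℂ, ‖φ (a : K)‖ ≤ 2} ⊆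
      ⋃ f ∈ P.filter (fun f => f ≠ 0), f.rootSet (𝓞 K) := by
    intro a ha
    have hint : IsIntegral ℤ (a : K) := RingOfIntegers.isIntegral_coe a
    have hmin : minpoly ℚ (a : K) = (minpoly ℤ (a : K)).map (algebraMap ℤ ℚ) :=
      minpoly.isIntegrallyClosed_eq_field_fractions' ℚ hint
    have hne : minpoly ℤ (a : K) ≠ 0 := minpoly.ne_zero hint
    simp only [Set.mem_iUnion, Finset.mem_filter]
    refine ⟨minpoly ℤ (a : K), ⟨?_, hne⟩, ?_⟩
    · rw [hP, Set.Finite.mem_toFinset]
      constructor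
      · have h1 : (minpoly ℚ (a : K)).natDegree ≤ Module.finrank ℚ K := minpoly.natDegree_le _
        rw [hmin, (minpoly.monic hint).natDegree_map] at h1
        exact h1.trans hD
      · intro i
        have h2 := Embeddings.coeff_bdd_of_norm_le (A := ℂ) (B := 2) (x := (a : K)) ha i
        rw [hmin, coeff_map] at h2
        have h3 : ‖(algebraMap ℤ ℚ) ((minpoly ℤ (a : K)).coeff i)‖ = |((minpoly ℤ (a : K)).coeff i : ℝ)| := by
          simp [Int.norm_eq_abs]
        rw [h3] at h2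
        have h4 : (max (2 : ℝ) 1) = 2 := by norm_num
        rw [h4] at h2
        have h5 : (2 : ℝ) ^ (Module.finrank ℚ K) * ((Module.finrank ℚ K).choose (Module.finrank ℚ K / 2) : ℝ)
            ≤ (2 : ℝ) ^ D * 2 ^ D := by
          apply mul_le_mul
          · exact pow_le_pow_right₀ (by norm_num) hD
          · calc ((Module.finrank ℚ K).choose (Module.finrank ℚ K / 2) : ℝ) ≤ (2 : ℝ) ^ (Module.finrank ℚ K) := by
                  exact_mod_cast Nat.choose_le_two_pow _ _
              _ ≤ 2 ^ D := pow_le_pow_right₀ (by norm_num) hD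
          · positivity
          · positivity
        have h6 := h2.trans h5
        rw [hC]
        exact_mod_cast h6
    · rw [mem_rootSet']
      refine ⟨?_, ?_⟩
      · exact (Polynomial.map_ne_zero_iff (RingHom.injective_int (algebraMap ℤ (𝓞 K)))).2 hne
      · have h1 : aeval (a : K) (minpoly ℤ (a : K)) = 0 := minpoly.aeval _ _
        have h2 : algebraMap (𝓞 K) K (aeval a (minpoly ℤ (a : K))) = 0 := by
          rw [← h1]
          exact (aeval_algebraMap_apply K a (minpoly ℤ (a : K))).symm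
        exact (FaithfulSMul.algebraMap_injective (𝓞 K) K) (by rw [h2, map_zero])
  have hfin2 : (⋃ f ∈ P.filter (fun f => f ≠ 0), f.rootSet (𝓞 K)).Finite := by
    apply Set.Finite.biUnion (Finset.finite_toSet _)
    intro f _
    exact rootSet_finite f _
  refine ⟨hfin2.subset hsub, ?_⟩
  calc {a : 𝓞 K | ∀ φ : K →+* ℂ, ‖φ (a : K)‖ ≤ 2}.ncard
      ≤ (⋃ f ∈ P.filter (fun f => f ≠ 0), f.rootSet (𝓞 K)).ncard := Set.ncard_le_ncard hsub hfin2
    _ ≤ ∑ f ∈ P.filter (fun f => f ≠ 0), (f.rootSet (𝓞 K)).ncard := Finset.set_ncard_biUnion_le _ _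
    _ ≤ ∑ f ∈ P.filter (fun f => f ≠ 0), D := by
        apply Finset.sum_le_sum
        intro f hf
        have hf' : f ∈ P := (Finset.mem_filter.1 hf).1
        rw [hP, Set.Finite.mem_toFinset] at hf'
        exact (ncard_rootSet_le f (𝓞 K)).trans hf'.1
    _ ≤ ∑ f ∈ P, D := Finset.sum_le_sum_of_subset (Finset.filter_subset _ _)
    _ ≤ ∑ f ∈ P, D + 1 := by omega

end Pool.Agent.Work.MP_2738db_nt_helper84
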