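import Pool.Agent.Work.MP_2738db_nt_helper84.Divisors
import Pool.Agent.Work.MP_2738db_nt_helper84.Northcott

/-! Counting divisors `u` of a fixed algebraic integer `c` with all conjugates bounded by `Y`:
`O(Y ^ δ)`, uniformly in the field (only the degree enters). -/

namespace Pool.Agent.Work.MP_2738db_nt_helper84

open NumberField

variable {K : Type} [Field K] [NumberField K]

theorem absNorm_span_eq (x : 𝓞 K) :
    (Ideal.absNorm (Ideal.span {x}) : ℝ) = ∏ φ : K →+* ℂ, ‖φ (x : K)‖ := by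
  have h1 : (Ideal.absNorm (Ideal.span {x}) : ℝ) = ‖((Algebra.norm ℚ (x : K) : ℚ) : ℂ)‖ := by
    rw [Ideal.absNorm_span_singleton, ← Algebra.coe_norm_int x]
    simp [Nat.cast_natAbs]
  have h2 : (algebraMap ℚ ℂ) (Algebra.norm ℚ (x : K)) = ∏ σ : K →ₐ[ℚ] ℂ, σ (x : K) :=
    Algebra.norm_eq_prod_embeddings ℚ ℂ (x : K)
  have h3 : ∏ σ : K →ₐ[ℚ] ℂ, ‖σ (x : K)‖ = ∏ φ : K →+* ℂ, ‖φ (x : K)‖ := by
    refine (Fintype.prod_equiv (RingHom.equivRatAlgHom K ℂ) _ _ ?_).symm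
    intro φ
    rfl
  rw [h1, ← h3, ← norm_prod, ← h2]
  simp

theorem one_le_prod_norm {x : 𝓞 K} (hx : x ≠ 0) : 1 ≤ ∏ φ : K →+* ℂ, ‖φ (x : K)‖ := by
  rw [← absNorm_span_eq]
  have : Ideal.absNorm (Ideal.span {x}) ≠ 0 := by
    rw [Ne, Ideal.absNorm_eq_zero_iff, Ideal.span_singleton_eq_bot]; exact hx
  exact_mod_cast Nat.one_le_iff_ne_zero.2 this

theorem norm_embed_pos {x : 𝓞 K} (hx : x ≠ 0) (φ : K →+* ℂ) : 0 < ‖φ (x : K)‖ := by
  rw [norm_pos_iff, Ne, map_eq_zero]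
  simpa using hx

theorem absNorm_span_le {x : 𝓞 K} {Y : ℝ} (hY : 1 ≤ Y) {D : ℕ}
    (hD : Module.finrank ℚ K ≤ D) (h : ∀ φ : K →+* ℂ, ‖φ (x : K)‖ ≤ Y) :
    (Ideal.absNorm (Ideal.span {x}) : ℝ) ≤ Y ^ D := by
  rw [absNorm_span_eq]
  calc ∏ φ : K →+* ℂ, ‖φ (x : K)‖ ≤ ∏ φ : K →+* ℂ, Y :=
        Finset.prod_le_prod (fun _ _ => norm_nonneg _) (fun φ _ => h φ)
    _ = Y ^ (Module.finrank ℚ K) := by
        rw [Finset.prod_const, Finset.card_univ, NumberField.Embeddings.card K ℂ]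
    _ ≤ Y ^ D := pow_le_pow_right₀ hY hD

/-- lower bound for conjugates -/
theorem lower_conj {x : 𝓞 K} (hx : x ≠ 0) {e D : ℕ}
    (hD : Module.finrank ℚ K ≤ D) (h : ∀ φ : K →+* ℂ, ‖φ (x : K)‖ ≤ (2 : ℝ) ^ e) (φ : K →+* ℂ) :
    (2 : ℝ) ^ (-((e * D : ℕ) : ℤ)) ≤ ‖φ (x : K)‖ := by
  classical
  have h1 := one_le_prod_norm hx
  rw [← Finset.mul_prod_erase Finset.univ _ (Finset.mem_univ φ)] at h1
  have h2 : ∏ ψ ∈ Finset.univ.erase φ, ‖ψ (x : K)‖ ≤ (2 : ℝ) ^ (e * D) := by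
    calc ∏ ψ ∈ Finset.univ.erase φ, ‖ψ (x : K)‖ ≤ ∏ ψ ∈ Finset.univ.erase φ, (2 : ℝ) ^ e :=
          Finset.prod_le_prod (fun _ _ => norm_nonneg _) (fun ψ _ => h ψ)
      _ = ((2 : ℝ) ^ e) ^ (Finset.univ.erase φ).card := by rw [Finset.prod_const]
      _ ≤ ((2 : ℝ) ^ e) ^ D := by
          apply pow_le_pow_right₀ (one_le_pow₀ (by norm_num))
          rw [Finset.card_erase_of_mem (Finset.mem_univ _), Finset.card_univ,
            NumberField.Embeddings.card K ℂ]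
          omega
      _ = (2 : ℝ) ^ (e * D) := by rw [← pow_mul]
  have h3 : 1 ≤ ‖φ (x : K)‖ * (2 : ℝ) ^ (e * D) :=
    h1.trans (mul_le_mul_of_nonneg_left h2 (norm_nonneg _))
  rw [zpow_neg, zpow_natCast]
  rw [inv_le_iff_one_le_mul₀ (by positivity)]
  exact h3

theorem fibre_count {N : ℕ}
    (hN : {a : 𝓞 K | ∀ φ : K →+* ℂ, ‖φ (a : K)‖ ≤ 2}.Finite ∧
      {a : 𝓞 K | ∀ φ : K →+* ℂ, ‖φ (a : K)‖ ≤ 2}.ncard ≤ N)
    (I : Ideal (𝓞 K)) (v : (K →+* ℂ) → ℤ) :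
    {u : 𝓞 K | u ≠ 0 ∧ Ideal.span {u} = I ∧ ∀ φ : K →+* ℂ, Int.log 2 ‖φ (u : K)‖ = v φ}.Finite ∧
    {u : 𝓞 K | u ≠ 0 ∧ Ideal.span {u} = I ∧
      ∀ φ : K →+* ℂ, Int.log 2 ‖φ (u : K)‖ = v φ}.ncard ≤ N := by
  classical
  set S := {u : 𝓞 K | u ≠ 0 ∧ Ideal.span {u} = I ∧ ∀ φ : K →+* ℂ, Int.log 2 ‖φ (u : K)‖ = v φ}
    with hS
  rcases S.eq_empty_or_nonempty with h | ⟨u0, hu0⟩
  · rw [h]; simp
  have hex : ∀ u ∈ S, ∃ a : 𝓞 K, u = a * u0 := by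
    intro u hu
    have h1 : Ideal.span {u} = Ideal.span {u0} := by rw [hu.2.1, hu0.2.1]
    have h2 : u ∈ Ideal.span {u0} := by rw [← h1]; exact Ideal.mem_span_singleton_self u
    obtain ⟨a, ha⟩ := Ideal.mem_span_singleton'.1 h2
    exact ⟨a, ha.symm⟩
  choose! f hf using hex
  have hmaps : ∀ u ∈ S, f u ∈ {a : 𝓞 K | ∀ φ : K →+* ℂ, ‖φ (a : K)‖ ≤ 2} := by
    intro u hu φ
    have h1 : ‖φ (u : K)‖ = ‖φ (f u : K)‖ * ‖φ (u0 : K)‖ := by
      conv_lhs => rw [hf u hu]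
      simp
    have hp0 := norm_embed_pos hu0.1 φ
    have h2 : ‖φ (u : K)‖ < (2 : ℝ) ^ (v φ + 1) := by
      have := Int.lt_zpow_succ_log_self (b := 2) (by norm_num) ‖φ (u : K)‖
      rw [hu.2.2 φ] at this
      exact_mod_cast this
    have h3 : (2 : ℝ) ^ (v φ) ≤ ‖φ (u0 : K)‖ := by
      have := Int.zpow_log_le_self (b := 2) (by norm_num) hp0
      rw [hu0.2.2 φ] at this
      exact_mod_cast this
    rw [zpow_add₀ (by norm_num), zpow_one, h1] at h2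
    by_contra hcon
    push Not at hcon
    have : (2 : ℝ) ^ (v φ) * 2 ≤ ‖φ (f u : K)‖ * ‖φ (u0 : K)‖ := by
      calc (2 : ℝ) ^ (v φ) * 2 ≤ ‖φ (u0 : K)‖ * ‖φ (f u : K)‖ :=
            mul_le_mul h3 hcon.le (by norm_num) (norm_nonneg _)
        _ = _ := mul_comm _ _
    linarith
  have hinj : Set.InjOn f S := by
    intro u hu u' hu' h
    rw [hf u hu, hf u' hu', h]
  refine ⟨Set.Finite.of_finite_image (hN.1.subset (Set.image_subset_iff.2 hmaps)) hinj, ?_⟩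
  exact (Set.ncard_le_ncard_of_injOn f hmaps hinj hN.1).trans hN.2

theorem log_pow_bound (D : ℕ) (δ : ℝ) (hδ : 0 < δ) : ∃ C : ℝ, 1 ≤ C ∧ ∀ Y : ℝ, 1 ≤ Y →
    (((⌈Real.logb 2 Y⌉₊ * (D + 1) + 1 : ℕ) : ℝ)) ^ D ≤ C * Y ^ δ := by
  -- `x + 1 ≤ C exp (δ' x)`
  set δ' : ℝ := δ / (D + 1) with hδ'
  have hδ'0 : 0 < δ' := by positivity
  have hl2 : 0 < Real.log 2 := Real.log_pos (by norm_num)
  set A : ℝ := (D + 1) * (1 / (Real.log 2 * δ') + 2) with hA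
  have hA1 : 1 ≤ A := by
    rw [hA]
    have h1 : (1 : ℝ) ≤ D + 1 := by
      have : (0 : ℝ) ≤ D := Nat.cast_nonneg D
      linarith
    have h2 : (1 : ℝ) ≤ 1 / (Real.log 2 * δ') + 2 := by
      have : 0 < 1 / (Real.log 2 * δ') := by positivity
      linarith
    calc (1 : ℝ) = 1 * 1 := by ring
      _ ≤ _ := mul_le_mul h1 h2 (by norm_num) (by linarith)
  refine ⟨A ^ D, one_le_pow₀ hA1, ?_⟩
  intro Y hY
  have hY0 : 0 < Y := by linarith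
  have hYd : 1 ≤ Y ^ δ' := Real.one_le_rpow hY hδ'0.le
  have hlog : 0 ≤ Real.log Y := Real.log_nonneg hY
  have h1 : (⌈Real.logb 2 Y⌉₊ : ℝ) ≤ Real.logb 2 Y + 1 :=
    (Nat.ceil_lt_add_one (Real.logb_nonneg (by norm_num) hY)).le
  have h2 : Real.log Y * δ' ≤ Y ^ δ' := by
    have := Real.add_one_le_exp (Real.log Y * δ')
    rw [Real.rpow_def_of_pos hY0]
    linarith
  have h3 : Real.logb 2 Y ≤ (1 / (Real.log 2 * δ')) * Y ^ δ' := by
    rw [Real.logb]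
    rw [div_mul_eq_mul_div, one_mul, div_le_div_iff₀ hl2 (by positivity)]
    calc Real.log Y * (Real.log 2 * δ') = Real.log 2 * (Real.log Y * δ') := by ring
      _ ≤ Real.log 2 * Y ^ δ' := mul_le_mul_of_nonneg_left h2 hl2.le
      _ = _ := by ring
  have h4 : (((⌈Real.logb 2 Y⌉₊ * (D + 1) + 1 : ℕ) : ℝ)) ≤ A * Y ^ δ' := by
    push_cast
    have hD0 : (0 : ℝ) ≤ D := Nat.cast_nonneg D
    calc (⌈Real.logb 2 Y⌉₊ : ℝ) * (D + 1) + 1 ≤ (Real.logb 2 Y + 1) * (D + 1) + 1 * (D + 1) := by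
          have : (⌈Real.logb 2 Y⌉₊ : ℝ) * (D + 1) ≤ (Real.logb 2 Y + 1) * (D + 1) :=
            mul_le_mul_of_nonneg_right h1 (by positivity)
          linarith
      _ = (D + 1) * (Real.logb 2 Y + 2) := by ring
      _ ≤ (D + 1) * ((1 / (Real.log 2 * δ')) * Y ^ δ' + 2 * Y ^ δ') := by
          apply mul_le_mul_of_nonneg_left _ (by positivity)
          linarith
      _ = A * Y ^ δ' := by rw [hA]; ring
  calc (((⌈Real.logb 2 Y⌉₊ * (D + 1) + 1 : ℕ) : ℝ)) ^ D ≤ (A * Y ^ δ') ^ D :=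
        pow_le_pow_left₀ (Nat.cast_nonneg _) h4 D
    _ = A ^ D * (Y ^ δ') ^ D := by rw [mul_pow]
    _ ≤ A ^ D * Y ^ δ := by
        apply mul_le_mul_of_nonneg_left _ (by positivity)
        rw [← Real.rpow_natCast, ← Real.rpow_mul hY0.le]
        apply Real.rpow_le_rpow_of_exponent_le hY
        rw [hδ', div_mul_eq_mul_div, div_le_iff₀ (by positivity)]
        nlinarith

theorem count_divisors (D : ℕ) (δ : ℝ) (hδ : 0 < δ) : ∃ C : ℝ, 1 ≤ C ∧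
    ∀ (K : Type) [Field K] [NumberField K], Module.finrank ℚ K ≤ D →
    ∀ c : 𝓞 K, c ≠ 0 → ∀ Y : ℝ, 1 ≤ Y → (∀ φ : K →+* ℂ, ‖φ (c : K)‖ ≤ Y) →
      {u : 𝓞 K | u ∣ c ∧ ∀ φ : K →+* ℂ, ‖φ (u : K)‖ ≤ Y}.Finite ∧
      (({u : 𝓞 K | u ∣ c ∧ ∀ φ : K →+* ℂ, ‖φ (u : K)‖ ≤ Y}.ncard : ℕ) : ℝ) ≤ C * Y ^ δ := by
  classical
  set δ1 : ℝ := δ / (2 * (D + 1)) with hδ1
  have hδ1' : 0 < δ1 := by positivity
  obtain ⟨C1, hC1, hdiv⟩ := divisor_bound D δ1 hδ1'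
  obtain ⟨N, hN1, hN⟩ := northcott D
  obtain ⟨C2, hC2, hlog⟩ := log_pow_bound D (δ / 2) (by positivity)
  have hNR : (1 : ℝ) ≤ N := by exact_mod_cast hN1
  refine ⟨C1 * C2 * N, ?_, ?_⟩
  · calc (1 : ℝ) = 1 * 1 * 1 := by ring
      _ ≤ C1 * C2 * N := by
          apply mul_le_mul (mul_le_mul hC1 hC2 (by norm_num) (by linarith)) hNR (by norm_num)
          positivity
  intro K _ _ hD c hc Y hY hcY
  set S := {u : 𝓞 K | u ∣ c ∧ ∀ φ : K →+* ℂ, ‖φ (u : K)‖ ≤ Y} with hS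
  have hY0 : 0 < Y := by linarith
  set e : ℕ := ⌈Real.logb 2 Y⌉₊ with he
  have hYe : Y ≤ (2 : ℝ) ^ e := by
    have h1 : Real.logb 2 Y ≤ e := Nat.le_ceil _
    have h2 := (Real.logb_le_iff_le_rpow (by norm_num) hY0).1 h1
    rwa [Real.rpow_natCast] at h2
  obtain ⟨hdfin, hdcard⟩ := hdiv K hD (Ideal.span {c}) (by
    rw [Ne, Ideal.span_singleton_eq_bot]; exact hc)
  set T1 : Finset (Ideal (𝓞 K)) := hdfin.toFinset with hT1
  set T2 : Finset ((K →+* ℂ) → ℤ) :=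
    Fintype.piFinset (fun _ => Finset.Icc (-((e * D : ℕ) : ℤ)) (e : ℤ)) with hT2
  have hsub : S ⊆ ⋃ p ∈ T1 ×ˢ T2, {u : 𝓞 K | u ≠ 0 ∧ Ideal.span {u} = p.1 ∧
      ∀ φ : K →+* ℂ, Int.log 2 ‖φ (u : K)‖ = p.2 φ} := by
    intro u hu
    have hu0 : u ≠ 0 := by
      rintro rfl
      exact hc (zero_dvd_iff.1 hu.1)
    simp only [Set.mem_iUnion, Finset.mem_product]
    refine ⟨(Ideal.span {u}, fun φ => Int.log 2 ‖φ (u : K)‖), ⟨?_, ?_⟩, hu0, rfl, fun φ => rfl⟩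
    · rw [hT1, Set.Finite.mem_toFinset]
      show Ideal.span {u} ∣ Ideal.span {c}
      rw [Ideal.dvd_span_singleton, Ideal.mem_span_singleton]
      exact hu.1
    · rw [hT2, Fintype.mem_piFinset]
      intro φ
      have hpos := norm_embed_pos hu0 φ
      rw [Finset.mem_Icc]
      constructor
      · apply (Int.zpow_le_iff_le_log (b := 2) (by norm_num) hpos).1
        have := lower_conj hu0 hD (fun ψ => (hu.2 ψ).trans hYe) φ
        exact_mod_cast this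
      · have h1 : ‖φ (u : K)‖ < ((2 : ℕ) : ℝ) ^ ((e : ℤ) + 1) := by
          have h2 : ‖φ (u : K)‖ ≤ (2 : ℝ) ^ e := (hu.2 φ).trans hYe
          have h3 : (2 : ℝ) ^ e < (2 : ℝ) ^ (e + 1) := pow_lt_pow_right₀ (by norm_num) (by omega)
          have h4 : ((2 : ℕ) : ℝ) ^ ((e : ℤ) + 1) = (2 : ℝ) ^ (e + 1) := by
            rw [← zpow_natCast]; push_cast; rfl
          rw [h4]; linarith
        have := (Int.lt_zpow_iff_log_lt (b := 2) (by norm_num) hpos).1 h1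
        show Int.log 2 ‖φ (u : K)‖ ≤ (e : ℤ)
        omega
  have hfib := fun (p : Ideal (𝓞 K) × ((K →+* ℂ) → ℤ)) => fibre_count (hN K hD) p.1 p.2
  have hfin : (⋃ p ∈ T1 ×ˢ T2, {u : 𝓞 K | u ≠ 0 ∧ Ideal.span {u} = p.1 ∧
      ∀ φ : K →+* ℂ, Int.log 2 ‖φ (u : K)‖ = p.2 φ}).Finite :=
    Set.Finite.biUnion (Finset.finite_toSet _) (fun p _ => (hfib p).1)
  refine ⟨hfin.subset hsub, ?_⟩
  have hcount : S.ncard ≤ T1.card * T2.card * N := by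
    calc S.ncard ≤ _ := Set.ncard_le_ncard hsub hfin
      _ ≤ ∑ p ∈ T1 ×ˢ T2, {u : 𝓞 K | u ≠ 0 ∧ Ideal.span {u} = p.1 ∧
          ∀ φ : K →+* ℂ, Int.log 2 ‖φ (u : K)‖ = p.2 φ}.ncard := Finset.set_ncard_biUnion_le _ _
      _ ≤ ∑ p ∈ T1 ×ˢ T2, N := Finset.sum_le_sum (fun p _ => (hfib p).2)
      _ = T1.card * T2.card * N := by rw [Finset.sum_const, Finset.card_product, smul_eq_mul]
  have hT1c : (T1.card : ℝ) ≤ C1 * Y ^ (δ / 2) := by
    have h1 : T1.card = {I : Ideal (𝓞 K) | I ∣ Ideal.span {c}}.ncard := by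
      rw [Set.ncard_eq_toFinset_card _ hdfin]
    rw [h1]
    refine hdcard.trans ?_
    apply mul_le_mul_of_nonneg_left _ (by linarith)
    have h2 := absNorm_span_le hY hD hcY
    calc (Ideal.absNorm (Ideal.span {c}) : ℝ) ^ δ1 ≤ (Y ^ D) ^ δ1 :=
          Real.rpow_le_rpow (Nat.cast_nonneg _) h2 hδ1'.le
      _ = Y ^ ((D : ℝ) * δ1) := by rw [← Real.rpow_natCast, ← Real.rpow_mul hY0.le]
      _ ≤ Y ^ (δ / 2) := by
          apply Real.rpow_le_rpow_of_exponent_le hY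
          rw [hδ1, mul_div_assoc', div_le_div_iff₀ (by positivity) (by norm_num)]
          nlinarith
  have hT2c : (T2.card : ℝ) ≤ C2 * Y ^ (δ / 2) := by
    have h1 : T2.card = (e * (D + 1) + 1) ^ (Module.finrank ℚ K) := by
      rw [hT2, Fintype.card_piFinset, Finset.prod_const, Finset.card_univ,
        NumberField.Embeddings.card K ℂ, Int.card_Icc]
      congr 1
      have : (e : ℤ) + 1 - (-((e * D : ℕ) : ℤ)) = ((e * (D + 1) + 1 : ℕ) : ℤ) := by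
        push_cast; ring
      rw [this, Int.toNat_natCast]
    rw [h1]
    push_cast
    calc ((e : ℝ) * (D + 1) + 1) ^ (Module.finrank ℚ K) ≤ ((e : ℝ) * (D + 1) + 1) ^ D := by
          apply pow_le_pow_right₀ _ hD
          have : (0 : ℝ) ≤ (e : ℝ) * (D + 1) := by positivity
          linarith
      _ ≤ C2 * Y ^ (δ / 2) := by
          have := hlog Y hY
          push_cast at this
          exact this
  calc (S.ncard : ℝ) ≤ (T1.card : ℝ) * T2.card * N := by exact_mod_cast hcount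
    _ ≤ (C1 * Y ^ (δ / 2)) * (C2 * Y ^ (δ / 2)) * N := by
        apply mul_le_mul_of_nonneg_right _ (Nat.cast_nonneg _)
        apply mul_le_mul hT1c hT2c (Nat.cast_nonneg _)
        positivity
    _ = C1 * C2 * N * (Y ^ (δ / 2) * Y ^ (δ / 2)) := by ring
    _ = C1 * C2 * N * Y ^ δ := by
        rw [← Real.rpow_add hY0]; congr 2; ring

end Pool.Agent.Work.MP_2738db_nt_helper84
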