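import Mathlib

/-! The fields: `L = ℚ(α)` with `α ^ s = n`, with a basis of integers with small conjugates, and
adjoining roots with control of the degree. -/

namespace Pool.Agent.Work.MP_2738db_nt_helper84

open NumberField

theorem adj (F : IntermediateField ℚ ℂ) [FiniteDimensional ℚ F] (γ : ℂ) (n : ℕ) (hn : 0 < n)
    (h : γ ^ n ∈ F) : ∃ F' : IntermediateField ℚ ℂ, F ≤ F' ∧ γ ∈ F' ∧ FiniteDimensional ℚ F' ∧
      Module.finrank ℚ F' ≤ n * Module.finrank ℚ F := by
  set p : Polynomial F := Polynomial.X ^ n - Polynomial.C (⟨γ ^ n, h⟩ : F) with hp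
  have hpm : p.Monic := Polynomial.monic_X_pow_sub_C _ hn.ne'
  have hp0 : Polynomial.aeval γ p = 0 := by
    rw [hp]
    simp only [map_sub, map_pow, Polynomial.aeval_X, Polynomial.aeval_C]
    show γ ^ n - γ ^ n = 0
    ring
  have hint : IsIntegral F γ := ⟨p, hpm, hp0⟩
  let E : IntermediateField F ℂ := IntermediateField.adjoin F {γ}
  have hEfin : FiniteDimensional F E := IntermediateField.adjoin.finiteDimensional hint
  have hEd : Module.finrank F E ≤ n := by
    rw [IntermediateField.adjoin.finrank hint]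
    have h1 : (minpoly F γ).natDegree ≤ p.natDegree :=
      Polynomial.natDegree_le_of_dvd (minpoly.dvd F γ hp0) hpm.ne_zero
    rwa [hp, Polynomial.natDegree_X_pow_sub_C] at h1
  have hfinQ : FiniteDimensional ℚ E := FiniteDimensional.trans ℚ F E
  have hdeg : Module.finrank ℚ E ≤ n * Module.finrank ℚ F := by
    rw [← Module.finrank_mul_finrank ℚ F E, mul_comm]
    exact Nat.mul_le_mul_right _ hEd
  refine ⟨IntermediateField.restrictScalars ℚ E, ?_, ?_, hfinQ, hdeg⟩
  · intro x hx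
    show x ∈ E
    exact E.algebraMap_mem (⟨x, hx⟩ : F)
  · show γ ∈ E
    exact IntermediateField.mem_adjoin_simple_self F γ

/-- the inclusion of the integers of `M ⊆ ℂ` in `ℂ` -/
noncomputable def inc (M : IntermediateField ℚ ℂ) : 𝓞 M →+* ℂ :=
  (algebraMap M ℂ).comp (algebraMap (𝓞 M) M)

theorem inc_injective (M : IntermediateField ℚ ℂ) : Function.Injective (inc M) := by
  intro a b h
  have h1 : algebraMap M ℂ (algebraMap (𝓞 M) M a) = algebraMap M ℂ (algebraMap (𝓞 M) M b) := h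
  exact (FaithfulSMul.algebraMap_injective (𝓞 M) M) ((algebraMap M ℂ).injective h1)

theorem inc_mem (M : IntermediateField ℚ ℂ) (a : 𝓞 M) : inc M a ∈ M :=
  (algebraMap (𝓞 M) M a).2

theorem inc_integral (M : IntermediateField ℚ ℂ) (a : 𝓞 M) : IsIntegral ℤ (inc M a) := by
  have h := RingOfIntegers.isIntegral_coe a
  exact (isIntegral_algebraMap_iff (R := ℤ) (A := M) (B := ℂ) (x := (a : M))
      (FaithfulSMul.algebraMap_injective M ℂ)).2 h

theorem inc_lift (M : IntermediateField ℚ ℂ) (x : ℂ) (hx : x ∈ M) (hi : IsIntegral ℤ x) :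
    ∃ a : 𝓞 M, inc M a = x := by
  have h : IsIntegral ℤ (⟨x, hx⟩ : M) :=
    (isIntegral_algebraMap_iff (R := ℤ) (A := M) (B := ℂ) (x := (⟨x, hx⟩ : M))
      (FaithfulSMul.algebraMap_injective M ℂ)).1 hi
  exact ⟨⟨⟨x, hx⟩, h⟩, rfl⟩

theorem exists_L (s : ℕ) (hs : 1 ≤ s) (n : ℕ) (hn : 1 ≤ n) (α : ℂ) (hα : α ^ s = n) :
    ∃ L : IntermediateField ℚ ℂ, ∃ _ : NumberField L, Module.finrank ℚ L ≤ s ∧
    ∃ a : 𝓞 L, inc L a = α ∧
    ∃ (κ : Type) (_ : Fintype κ) (b : κ → 𝓞 L) (H : κ → ℝ), Fintype.card κ = Module.finrank ℚ L ∧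
      LinearIndependent ℤ b ∧ (∀ i, 0 < H i) ∧ (∀ i, ∀ φ : L →+* ℂ, ‖φ (b i : L)‖ ≤ H i) ∧
      ∏ i, H i ≤ (n : ℝ) ^ (((s : ℝ) - 1) / 2) := by
  classical
  have hs0 : s ≠ 0 := by omega
  let L : IntermediateField ℚ ℂ := IntermediateField.adjoin ℚ {α}
  have hαi : IsIntegral ℤ α := by
    have h0 : IsIntegral ℤ (α ^ s) := by
      rw [hα]
      exact isIntegral_algebraMap (R := ℤ) (A := ℂ) (x := (n : ℤ)) |> fun h => by simpa using h
    exact IsIntegral.of_pow (by omega) h0
  have hαL : α ∈ L := IntermediateField.subset_adjoin ℚ _ (by simp)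
  -- the spanning set
  let m : Fin s → ℂ := fun p => α ^ (p : ℕ)
  let W : Submodule ℚ ℂ := Submodule.span ℚ (Set.range m)
  have hmon : ∀ j : ℕ, α ^ j ∈ W := by
    intro j
    have h2 : α ^ j = ((n : ℚ) ^ (j / s)) • α ^ (j % s) := by
      conv_lhs => rw [← Nat.mod_add_div j s]
      rw [pow_add, pow_mul, hα, Algebra.smul_def]
      simp [mul_comm]
    rw [h2]
    apply Submodule.smul_mem
    apply Submodule.subset_span
    exact ⟨⟨j % s, Nat.mod_lt _ (by omega)⟩, rfl⟩
  have hmul : ∀ x ∈ W, ∀ y ∈ W, x * y ∈ W := by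
    intro x hx y hy
    have h1 : x * y ∈ W * W := Submodule.mul_mem_mul hx hy
    have h2 : W * W ≤ W := by
      show Submodule.span ℚ (Set.range m) * Submodule.span ℚ (Set.range m) ≤ W
      rw [Submodule.span_mul_span]
      apply Submodule.span_le.2
      rintro _ ⟨_, ⟨p, rfl⟩, _, ⟨q, rfl⟩, rfl⟩
      have h3 : m p * m q = α ^ ((p : ℕ) + q) := by
        simp only [m]; ring
      show m p * m q ∈ W
      rw [h3]; exact hmon _
    exact h2 h1
  have hLW : ∀ x ∈ L, x ∈ W := by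
    intro x hx
    have halg : ∀ y ∈ ({α} : Set ℂ), IsAlgebraic ℚ y := by
      intro y hy
      rw [Set.mem_singleton_iff] at hy
      rw [hy]
      exact (hαi.tower_top (A := ℚ)).isAlgebraic
    have h1 : L.toSubalgebra = Algebra.adjoin ℚ {α} :=
      IntermediateField.adjoin_toSubalgebra_of_isAlgebraic halg
    have h2 : x ∈ Algebra.adjoin ℚ ({α} : Set ℂ) := by
      rw [← h1]; exact hx
    refine Algebra.adjoin_induction (p := fun x _ => x ∈ W) ?_ ?_ ?_ ?_ h2
    · intro y hy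
      rw [Set.mem_singleton_iff] at hy
      rw [hy]
      have := hmon 1; simpa using this
    · intro r
      have h3 := hmon 0
      rw [pow_zero] at h3
      rw [Algebra.algebraMap_eq_smul_one]
      exact W.smul_mem r h3
    · intro x y _ _ hx hy; exact W.add_mem hx hy
    · intro x y _ _ hx hy; exact hmul x hx y hy
  -- elements of `L`
  let v : Fin s → L := fun p => ⟨m p, pow_mem hαL (p : ℕ)⟩
  have hspan : Submodule.span ℚ (Set.range v) = ⊤ := by
    rw [eq_top_iff]
    rintro ⟨x, hx⟩ -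
    have h1 : x ∈ W := hLW x hx
    have h2 : W = (Submodule.span ℚ (Set.range v)).map L.val.toLinearMap := by
      rw [Submodule.map_span]
      rw [← Set.range_comp]
      rfl
    rw [h2] at h1
    obtain ⟨y, hy, hyx⟩ := h1
    have : y = ⟨x, hx⟩ := Subtype.ext hyx
    rwa [this] at hy
  obtain ⟨κ, a, ha, hsp, hli⟩ := exists_linearIndependent' ℚ v
  have hκfin : Finite κ := Finite.of_injective a ha
  let _ : Fintype κ := Fintype.ofFinite κ
  let bas : Module.Basis κ ℚ L := Module.Basis.mk hli (by rw [hsp, hspan])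
  have hfd : FiniteDimensional ℚ L := Module.Basis.finiteDimensional_of_finite bas
  have hNF : NumberField L := { to_charZero := inferInstance, to_finiteDimensional := hfd }
  have hcard : Fintype.card κ = Module.finrank ℚ L := (Module.finrank_eq_card_basis bas).symm
  refine ⟨L, hNF, ?_, ?_⟩
  · rw [← hcard]
    have := Fintype.card_le_of_injective a ha
    simpa using this
  obtain ⟨θ, hθ⟩ := inc_lift L α hαL hαi
  have hθs : θ ^ s = (n : 𝓞 L) := by
    apply inc_injective L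
    rw [map_pow, hθ, hα, map_natCast]
  have hn1 : (1 : ℝ) ≤ n := by exact_mod_cast hn
  have hn0 : (0 : ℝ) < n := by linarith
  refine ⟨θ, hθ, κ, inferInstance, fun i => θ ^ (a i : ℕ),
    fun i => (n : ℝ) ^ (((a i : ℕ) : ℝ) / s), hcard, ?_, fun i => Real.rpow_pos_of_pos hn0 _, ?_, ?_⟩
  · -- linear independence
    have h1 : LinearIndependent ℤ (v ∘ a) := hli.restrict_scalars (by
      intro x y h
      simpa using h)
    have h2 : (v ∘ a) = (algebraMap (𝓞 L) L).toIntAlgHom.toLinearMap ∘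
        (fun i => θ ^ (a i : ℕ)) := by
      funext i
      apply L.val.injective
      simp only [Function.comp, v, m]
      simp only [AlgHom.toLinearMap_apply, RingHom.toIntAlgHom_apply, map_pow]
      show α ^ (a i : ℕ) = (inc L θ) ^ (a i : ℕ)
      rw [hθ]
    rw [h2] at h1
    exact LinearIndependent.of_comp _ h1
  · intro i φ
    have hφθ : ‖φ (θ : L)‖ ^ s = n := by
      rw [← norm_pow, ← map_pow]
      have : ((θ : L)) ^ s = n := by
        have := congrArg (algebraMap (𝓞 L) L) hθs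
        simpa using this
      rw [this, map_natCast]
      simp
    have hsR : (s : ℝ) ≠ 0 := by exact_mod_cast hs0
    have hφ : ‖φ (θ : L)‖ = (n : ℝ) ^ (1 / (s : ℝ)) := by
      rw [← hφθ, ← Real.rpow_natCast, ← Real.rpow_mul (norm_nonneg _), mul_one_div_cancel hsR,
        Real.rpow_one]
    show ‖φ (((θ ^ (a i : ℕ) : 𝓞 L)) : L)‖ ≤ (n : ℝ) ^ (((a i : ℕ) : ℝ) / s)
    have hcoe : ((θ ^ (a i : ℕ) : 𝓞 L) : L) = (θ : L) ^ (a i : ℕ) := rfl
    rw [hcoe, map_pow, norm_pow, hφ, ← Real.rpow_natCast, ← Real.rpow_mul hn0.le]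
    apply le_of_eq
    congr 1
    ring
  · rw [← Real.rpow_sum_of_pos hn0]
    apply Real.rpow_le_rpow_of_exponent_le hn1
    rw [← Finset.sum_div]
    have hsR : (0 : ℝ) < s := by exact_mod_cast (by omega : 0 < s)
    have h1 : ∑ i : κ, ((a i : ℕ) : ℝ) ≤ ∑ j : Fin s, ((j : ℕ) : ℝ) := by
      calc ∑ i : κ, ((a i : ℕ) : ℝ) = ∑ j ∈ Finset.univ.image a, ((j : ℕ) : ℝ) := by
            rw [Finset.sum_image (fun x _ y _ h => ha h)]
        _ ≤ ∑ j : Fin s, ((j : ℕ) : ℝ) :=
            Finset.sum_le_sum_of_subset_of_nonneg (Finset.subset_univ _)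
              (fun _ _ _ => Nat.cast_nonneg _)
    have h2 : ∑ j : Fin s, ((j : ℕ) : ℝ) = s * (s - 1) / 2 := by
      rw [Fin.sum_univ_eq_sum_range (fun j => ((j : ℕ) : ℝ)) s]
      have h3 := Finset.sum_range_id_mul_two s
      have h4 : ((∑ i ∈ Finset.range s, i : ℕ) : ℝ) * 2 = s * ((s - 1 : ℕ) : ℝ) := by exact_mod_cast h3
      rw [Nat.cast_sub hs] at h4
      push_cast at h4
      linarith
    rw [h2] at h1
    rw [div_le_iff₀ hsR]
    calc _ ≤ _ := h1
      _ = _ := by ring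

/-- If all complex embeddings agree on an integer `u` of a number field, `u` is a rational
integer. -/
theorem eq_int_of_embeddings {K : Type} [Field K] [NumberField K] (u : 𝓞 K)
    (h : ∀ τ τ' : K →+* ℂ, τ (u : K) = τ' (u : K)) : ∃ w : ℤ, u = (w : 𝓞 K) := by
  classical
  obtain ⟨τ⟩ : Nonempty (K →+* ℂ) := inferInstance
  have h1 : (algebraMap ℚ ℂ) (Algebra.trace ℚ K (u : K)) = ∑ σ : K →ₐ[ℚ] ℂ, σ (u : K) :=
    trace_eq_sum_embeddings ℂ
  have h2 : ∑ σ : K →ₐ[ℚ] ℂ, σ (u : K) = (Module.finrank ℚ K : ℂ) * τ (u : K) := by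
    have h0 : ∀ σ : K →ₐ[ℚ] ℂ, σ (u : K) = τ (u : K) := fun σ => h (σ : K →+* ℂ) τ
    simp only [h0]
    rw [Finset.sum_const, Finset.card_univ, AlgHom.card, nsmul_eq_mul]
  have hd : (Module.finrank ℚ K : ℚ) ≠ 0 := by
    exact_mod_cast (Module.finrank_pos (R := ℚ) (M := K)).ne'
  set q : ℚ := Algebra.trace ℚ K (u : K) / Module.finrank ℚ K with hq
  have h3 : τ (u : K) = (q : ℂ) := by
    rw [h2] at h1
    rw [hq]
    push_cast
    rw [eq_div_iff (by exact_mod_cast hd), mul_comm]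
    exact h1.symm
  have h4 : (u : K) = (q : K) := by
    apply τ.injective
    rw [h3, map_ratCast]
  have h5 : IsIntegral ℤ (algebraMap ℚ K q) := by
    have h6 : algebraMap ℚ K q = (u : K) := by rw [h4]; simp
    rw [h6]
    exact RingOfIntegers.isIntegral_coe u
  have h7 : IsIntegral ℤ q :=
    (isIntegral_algebraMap_iff (R := ℤ) (A := ℚ) (B := K) (algebraMap ℚ K).injective).1 h5
  obtain ⟨w, hw⟩ := IsIntegrallyClosed.isIntegral_iff.1 h7
  refine ⟨w, ?_⟩
  apply FaithfulSMul.algebraMap_injective (𝓞 K) K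
  show (u : K) = _
  rw [h4, ← hw]
  simp

end Pool.Agent.Work.MP_2738db_nt_helper84
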