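import Pool.Agent.Work.MP_2738db_nt_helper84.Classes
import Pool.Agent.Work.MP_2738db_nt_helper84.Fields

/-! The descent for `|D - x ^ s| = y ^ t` in a field containing an `s`-th root `η` of `D`: the
element `η - x` generates a `t`-th power up to a divisor of `s ^ t`; in `ℚ(α)`, `α ^ s = n`, these
elements lie in polynomially (in `n`) many classes modulo `t`-th powers. -/

namespace Pool.Agent.Work.MP_2738db_nt_helper84

open NumberField

variable {K : Type} [Field K] [NumberField K]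

theorem factor_class {s t : ℕ} (hs : 1 ≤ s) (ht : 1 ≤ t) {D x y : ℕ} (hxD : Nat.Coprime x D)
    (hy : 1 ≤ y) (h : |((D : ℤ) - (x : ℤ) ^ s)| = (y : ℤ) ^ t)
    {η : 𝓞 K} (hη : η ^ s = (D : 𝓞 K)) :
    η - x ≠ 0 ∧ ∃ I J : Ideal (𝓞 K), Ideal.span {η - x} = I * J ^ t ∧
      Ideal.span {(s : 𝓞 K) ^ t} ≤ I := by
  classical
  set A : 𝓞 K := η - x with hA
  set B : 𝓞 K := ∑ i ∈ Finset.range s, η ^ i * (x : 𝓞 K) ^ (s - 1 - i) with hB
  have hprod : A * B = ((((D : ℤ) - (x : ℤ) ^ s) : ℤ) : 𝓞 K) := by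
    rw [hA, hB, (Commute.all η (x : 𝓞 K)).mul_geom_sum₂, hη]
    push_cast
    ring
  have hw0 : ((D : ℤ) - (x : ℤ) ^ s) ≠ 0 := by
    intro h0
    rw [h0, abs_zero] at h
    have : (0 : ℤ) < (y : ℤ) ^ t := by positivity
    omega
  have hw0' : ((((D : ℤ) - (x : ℤ) ^ s) : ℤ) : 𝓞 K) ≠ 0 := by
    exact_mod_cast hw0
  have hA0 : A ≠ 0 := by
    intro h0; rw [h0, zero_mul] at hprod; exact hw0' hprod.symm
  have hB0 : B ≠ 0 := by
    intro h0; rw [h0, mul_zero] at hprod; exact hw0' hprod.symm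
  have hspan : Ideal.span {A} * Ideal.span {B} = Ideal.span {(y : 𝓞 K)} ^ t := by
    rw [Ideal.span_singleton_mul_span_singleton, hprod, Ideal.span_singleton_pow,
      Ideal.span_singleton_eq_span_singleton]
    rcases abs_eq (by positivity : (0 : ℤ) ≤ (y : ℤ) ^ t) |>.1 h with h1 | h1
    · rw [h1]; push_cast; exact Associated.refl _
    · rw [h1]; push_cast; exact (Associated.refl _).neg_left
  refine ⟨hA0, ?_⟩
  have hcop : ∀ P : Ideal (𝓞 K), P.IsPrime → Ideal.span {A} ≤ P → Ideal.span {B} ≤ P →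
      (s : 𝓞 K) ∈ P := by
    intro P hP h1 h2
    rw [Ideal.span_singleton_le_iff_mem] at h1 h2
    -- `B ≡ s x ^ (s - 1)` modulo `A`
    have h3 : (s : 𝓞 K) * (x : 𝓞 K) ^ (s - 1) ∈ P := by
      have h4 : B - (s : 𝓞 K) * (x : 𝓞 K) ^ (s - 1) ∈ P := by
        have h5 : B - (s : 𝓞 K) * (x : 𝓞 K) ^ (s - 1) =
            ∑ i ∈ Finset.range s, (η ^ i - (x : 𝓞 K) ^ i) * (x : 𝓞 K) ^ (s - 1 - i) := by
          have h6 : (s : 𝓞 K) * (x : 𝓞 K) ^ (s - 1) =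
              ∑ i ∈ Finset.range s, (x : 𝓞 K) ^ i * (x : 𝓞 K) ^ (s - 1 - i) := by
            rw [Finset.sum_congr rfl (g := fun _ => (x : 𝓞 K) ^ (s - 1))]
            · rw [Finset.sum_const, Finset.card_range, nsmul_eq_mul]
            · intro i hi
              have := Finset.mem_range.1 hi
              rw [← pow_add]
              congr 1; omega
          rw [hB, h6, ← Finset.sum_sub_distrib]
          apply Finset.sum_congr rfl
          intro i _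
          ring
        rw [h5]
        apply P.sum_mem
        intro i _
        apply P.mul_mem_right
        obtain ⟨q, hq⟩ := sub_dvd_pow_sub_pow η (x : 𝓞 K) i
        rw [hq]
        exact P.mul_mem_right _ h1
      have : (s : 𝓞 K) * (x : 𝓞 K) ^ (s - 1) = B - (B - (s : 𝓞 K) * (x : 𝓞 K) ^ (s - 1)) := by ring
      rw [this]
      exact P.sub_mem h2 h4
    rcases hP.mem_or_mem h3 with h4 | h4
    · exact h4
    · exfalso
      have hx : (x : 𝓞 K) ∈ P := hP.mem_of_pow_mem _ h4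
      have hηP : η ∈ P := by
        have : η = A + x := by rw [hA]; ring
        rw [this]; exact P.add_mem h1 hx
      have hD : (D : 𝓞 K) ∈ P := by
        rw [← hη]; exact P.pow_mem_of_mem hηP s (by omega)
      apply hP.ne_top
      rw [Ideal.eq_top_iff_one]
      have hcop : IsCoprime (x : ℤ) (D : ℤ) := by
        exact_mod_cast Nat.isCoprime_iff_coprime.2 hxD
      obtain ⟨a, b, hab⟩ := hcop
      have h6 : ((a : 𝓞 K) * x + b * D) = 1 := by exact_mod_cast congrArg (Int.cast : ℤ → 𝓞 K) hab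
      rw [← h6]
      exact P.add_mem (P.mul_mem_left _ hx) (P.mul_mem_left _ hD)
  obtain ⟨I, J, h1, h2⟩ := ideal_split (s : 𝓞 K) (Ideal.span {A}) (Ideal.span {B})
    (Ideal.span {(y : 𝓞 K)}) t ht hspan
    (by rw [Ne, Ideal.span_singleton_eq_bot]; exact hA0)
    (by rw [Ne, Ideal.span_singleton_eq_bot]; exact hB0) hcop
  exact ⟨I, J, h1, h2⟩

/-- The class relation: `A` is `f` up to a `t`-th power. -/
def Cls (t : ℕ) (A f : 𝓞 K) : Prop :=
  ∃ β β' : 𝓞 K, β ≠ 0 ∧ β' ≠ 0 ∧ A * β' ^ t = f * β ^ t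

theorem classes (s t : ℕ) (hs : 1 ≤ s) (ht : 1 ≤ t) (δ : ℝ) (hδ : 0 < δ) :
    ∃ C0 : ℝ, 1 ≤ C0 ∧ ∀ n : ℕ, 1 ≤ n →
    ∀ α : ℂ, α ^ s = n →
    ∃ L : IntermediateField ℚ ℂ, ∃ _ : NumberField L, Module.finrank ℚ L ≤ s ∧
    ∃ a : 𝓞 L, inc L a = α ∧
    ∃ F : Finset (𝓞 L), (F.card : ℝ) ≤ C0 * (n : ℝ) ^ (((s : ℝ) - 1) / 2 * (1 + δ)) ∧
    ∀ D x y : ℕ, Nat.Coprime x D → 1 ≤ y → |((D : ℤ) - (x : ℤ) ^ s)| = (y : ℤ) ^ t →
    ∀ η : 𝓞 L, η ^ s = (D : 𝓞 L) → ∃ f ∈ F, Cls t (η - (x : 𝓞 L)) f := by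
  obtain ⟨N, hN1, hN⟩ := northcott s
  obtain ⟨C1, hC11, hC1⟩ := ideals_norm_le2 s δ hδ
  have hsR : (1 : ℝ) ≤ s := by exact_mod_cast hs
  have htR : (1 : ℝ) ≤ t := by exact_mod_cast ht
  have hNR : (1 : ℝ) ≤ N := by exact_mod_cast hN1
  have hss : (1 : ℝ) ≤ (s : ℝ) ^ s := one_le_pow₀ hsR
  set C2 : ℝ := (2 * (s : ℝ) ^ s) ^ (1 + δ) with hC2
  have hC21 : 1 ≤ C2 := Real.one_le_rpow (by linarith) (by linarith)
  refine ⟨((s : ℝ) ^ t) ^ s * (C1 * C2) * (N * (t : ℝ) ^ s), ?_, ?_⟩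
  · have h1 : (1 : ℝ) ≤ ((s : ℝ) ^ t) ^ s := one_le_pow₀ (one_le_pow₀ hsR)
    have h2 : (1 : ℝ) ≤ (t : ℝ) ^ s := one_le_pow₀ htR
    have h3 : (1 : ℝ) ≤ C1 * C2 := by nlinarith
    have h4 : (1 : ℝ) ≤ N * (t : ℝ) ^ s := by nlinarith
    have h5 : (1 : ℝ) ≤ ((s : ℝ) ^ t) ^ s * (C1 * C2) := by nlinarith
    nlinarith
  intro n hn α hα
  obtain ⟨L, hL, hd, a, ha, κ, _, b, H, hκ, hb, hH0, hbn, hHn⟩ := exists_L s hs n hn α hα
  have hn1 : (1 : ℝ) ≤ n := by exact_mod_cast hn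
  have hn0 : (0 : ℝ) < n := by linarith
  set E : ℝ := ((s : ℝ) - 1) / 2 with hE
  have hE0 : 0 ≤ E := by rw [hE]; linarith
  have hnE : 1 ≤ (n : ℝ) ^ E := Real.one_le_rpow hn1 hE0
  have hs0 : ((s : 𝓞 L) ^ t) ≠ 0 := by
    apply pow_ne_zero
    exact_mod_cast (by omega : s ≠ 0)
  have hdpos : 0 < Module.finrank ℚ L := Module.finrank_pos (R := ℚ) (M := L)
  have hHpos : 0 < ∏ i, H i := Finset.prod_pos (fun i _ => hH0 i)
  set B : ℕ := ⌈(Module.finrank ℚ L : ℝ) ^ (Module.finrank ℚ L) * (∏ i, H i)⌉₊ with hB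
  have hB0 : (Module.finrank ℚ L : ℝ) ^ (Module.finrank ℚ L) * (∏ i, H i) ≤ B := Nat.le_ceil _
  have hB1 : 1 ≤ B := by
    rw [hB, Nat.one_le_ceil_iff]
    have : (0 : ℝ) < Module.finrank ℚ L := by exact_mod_cast hdpos
    positivity
  have hBs : (B : ℝ) ≤ 2 * (s : ℝ) ^ s * (n : ℝ) ^ E := by
    have h1 : (B : ℝ) ≤ (Module.finrank ℚ L : ℝ) ^ (Module.finrank ℚ L) * (∏ i, H i) + 1 := by
      apply (Nat.ceil_lt_add_one _).le
      have : (0 : ℝ) < Module.finrank ℚ L := by exact_mod_cast hdpos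
      positivity
    have h2 : (Module.finrank ℚ L : ℝ) ^ (Module.finrank ℚ L) ≤ (s : ℝ) ^ s := by
      have h3 : (Module.finrank ℚ L) ^ (Module.finrank ℚ L) ≤ s ^ s :=
        (Nat.pow_le_pow_left hd _).trans (Nat.pow_le_pow_right (by omega) hd)
      exact_mod_cast h3
    have h4 : (Module.finrank ℚ L : ℝ) ^ (Module.finrank ℚ L) * (∏ i, H i) ≤
        (s : ℝ) ^ s * (n : ℝ) ^ E := mul_le_mul h2 hHn hHpos.le (by positivity)
    have h5 : 1 ≤ (s : ℝ) ^ s * (n : ℝ) ^ E := by nlinarith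
    linarith
  obtain ⟨F, hF1, hF2, hF3⟩ := power_classes (hN L hd) t ht (Ideal.span {(s : 𝓞 L) ^ t})
    (by rw [Ne, Ideal.span_singleton_eq_bot]; exact hs0)
    B _ le_rfl (box' hκ b hb H hH0 hbn B hB0)
  refine ⟨L, hL, hd, a, ha, F, ?_, ?_⟩
  · have hnorm : Ideal.absNorm (Ideal.span {(s : 𝓞 L) ^ t}) = (s ^ t) ^ (Module.finrank ℚ L) := by
      rw [Ideal.absNorm_span_singleton]
      have : (s : 𝓞 L) ^ t = algebraMap ℤ (𝓞 L) ((s : ℤ) ^ t) := by simp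
      rw [this, Algebra.norm_algebraMap, RingOfIntegers.rank]
      simp [Int.natAbs_pow]
    rw [hnorm] at hF1
    have e0 : (F.card : ℝ) ≤ (((s : ℝ) ^ t) ^ (Module.finrank ℚ L)) *
        (({J : Ideal (𝓞 L) | 1 ≤ Ideal.absNorm J ∧ Ideal.absNorm J ≤ B}.ncard : ℕ) : ℝ) *
        (N * (t : ℝ) ^ (Module.finrank ℚ L)) := by exact_mod_cast hF1
    have e1 : ((s : ℝ) ^ t) ^ (Module.finrank ℚ L) ≤ ((s : ℝ) ^ t) ^ s :=
      pow_le_pow_right₀ (one_le_pow₀ hsR) hd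
    have e2 : (({J : Ideal (𝓞 L) | 1 ≤ Ideal.absNorm J ∧ Ideal.absNorm J ≤ B}.ncard : ℕ) : ℝ) ≤
        C1 * C2 * (n : ℝ) ^ (E * (1 + δ)) := by
      refine (hC1 L hd B hB1).trans ?_
      rw [mul_assoc]
      apply mul_le_mul_of_nonneg_left _ (by linarith)
      calc (B : ℝ) ^ (1 + δ) ≤ (2 * (s : ℝ) ^ s * (n : ℝ) ^ E) ^ (1 + δ) :=
            Real.rpow_le_rpow (Nat.cast_nonneg _) hBs (by linarith)
        _ = C2 * (n : ℝ) ^ (E * (1 + δ)) := by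
            rw [Real.mul_rpow (by positivity) (by positivity), ← Real.rpow_mul hn0.le]
    have e3 : N * (t : ℝ) ^ (Module.finrank ℚ L) ≤ N * (t : ℝ) ^ s :=
      mul_le_mul_of_nonneg_left (pow_le_pow_right₀ htR hd) (by linarith)
    calc (F.card : ℝ) ≤ _ := e0
      _ ≤ ((s : ℝ) ^ t) ^ s * (C1 * C2 * (n : ℝ) ^ (E * (1 + δ))) * (N * (t : ℝ) ^ s) := by
          apply mul_le_mul _ e3 (by positivity) (by positivity)
          exact mul_le_mul e1 e2 (Nat.cast_nonneg _) (by positivity)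
      _ = _ := by ring
  · intro D x y hxD hy h η hη
    obtain ⟨h1, h2⟩ := factor_class hs ht hxD hy h hη
    exact hF3 _ h1 h2

end Pool.Agent.Work.MP_2738db_nt_helper84
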