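import Pool.Agent.Work.MP_2738db_nt_helper84.Ideals

/-! The divisor bound for ideals of number fields, uniform in the field (only the degree
enters). -/

namespace Pool.Agent.Work.MP_2738db_nt_helper84

open NumberField UniqueFactorizationMonoid

theorem succ_le_const {δ : ℝ} (hδ : 0 < δ) {N : ℕ} (hN : 2 ≤ N) (e : ℕ) :
    ((e : ℝ) + 1) ≤ (1 + 1 / ((2 : ℝ) ^ δ - 1)) * ((N : ℝ) ^ δ) ^ e := by
  have h2 : (1 : ℝ) < (2 : ℝ) ^ δ := Real.one_lt_rpow (by norm_num) hδ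
  set b : ℝ := (2 : ℝ) ^ δ - 1 with hb
  have hb0 : 0 < b := by rw [hb]; linarith
  have h3 : (2 : ℝ) ^ δ ≤ (N : ℝ) ^ δ :=
    Real.rpow_le_rpow (by norm_num) (by exact_mod_cast hN) hδ.le
  have h4 : (1 : ℝ) + e * b ≤ ((N : ℝ) ^ δ) ^ e := by
    calc (1 : ℝ) + e * b ≤ (1 + b) ^ e := one_add_mul_le_pow (by linarith) e
      _ ≤ ((N : ℝ) ^ δ) ^ e := by
          apply pow_le_pow_left₀ (by linarith)
          rw [hb]; linarith
  have h5 : ((e : ℝ) + 1) ≤ (1 + 1 / b) * (1 + e * b) := by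
    have he : (0 : ℝ) ≤ e := Nat.cast_nonneg e
    have : (1 + 1 / b) * (1 + e * b) = 1 + e * b + 1 / b + e := by field_simp; ring
    rw [this]
    have : 0 ≤ e * b := by positivity
    have : 0 < 1 / b := by positivity
    linarith
  calc ((e : ℝ) + 1) ≤ (1 + 1 / b) * (1 + e * b) := h5
    _ ≤ (1 + 1 / b) * ((N : ℝ) ^ δ) ^ e := by
        apply mul_le_mul_of_nonneg_left h4
        positivity

theorem succ_le_big {δ : ℝ} {N : ℕ} (hN : (2 : ℝ) ≤ (N : ℝ) ^ δ) (e : ℕ) :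
    ((e : ℝ) + 1) ≤ ((N : ℝ) ^ δ) ^ e := by
  calc ((e : ℝ) + 1) ≤ 2 ^ e := by
        have : e + 1 ≤ 2 ^ e := Nat.lt_two_pow_self
        exact_mod_cast this
    _ ≤ ((N : ℝ) ^ δ) ^ e := pow_le_pow_left₀ (by norm_num) hN e

theorem card_divisors {K : Type} [Field K] [NumberField K] (J : Ideal (𝓞 K)) (hJ : J ≠ ⊥) :
    {I : Ideal (𝓞 K) | I ∣ J}.Finite ∧
    (({I : Ideal (𝓞 K) | I ∣ J}.ncard : ℕ) : ℝ) ≤
      ∏ P ∈ (normalizedFactors J).toFinset, (((normalizedFactors J).count P : ℝ) + 1) := by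
  classical
  have hJ0 : J ≠ 0 := hJ
  let f : Ideal (𝓞 K) → Multiset (Ideal (𝓞 K)) := fun I => normalizedFactors I
  have hmaps : ∀ I ∈ {I : Ideal (𝓞 K) | I ∣ J}, f I ∈ (Finset.Iic (normalizedFactors J) : Set (Multiset (Ideal (𝓞 K)))) := by
    intro I hI
    have hI' : I ∣ J := hI
    have hI0 : I ≠ 0 := ne_zero_of_dvd_ne_zero hJ0 hI'
    simp only [Finset.coe_Iic, Set.mem_Iic]
    exact (dvd_iff_normalizedFactors_le_normalizedFactors hI0 hJ0).1 hI'
  have hinj : Set.InjOn f {I : Ideal (𝓞 K) | I ∣ J} := by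
    intro I hI I' hI' h
    have hI0 : I ≠ 0 := ne_zero_of_dvd_ne_zero hJ0 hI
    have hI0' : I' ≠ 0 := ne_zero_of_dvd_ne_zero hJ0 hI'
    have h1 := prod_normalizedFactors_eq hI0
    have h2 := prod_normalizedFactors_eq hI0'
    have h3 : normalizedFactors I = normalizedFactors I' := h
    rw [h3, h2] at h1
    simpa using h1.symm
  have hfin : {I : Ideal (𝓞 K) | I ∣ J}.Finite :=
    Set.Finite.of_finite_image ((Finset.finite_toSet (Finset.Iic (normalizedFactors J))).subset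
      (Set.image_subset_iff.2 hmaps)) hinj
  refine ⟨hfin, ?_⟩
  have hle := Set.ncard_le_ncard_of_injOn f hmaps hinj (Finset.finite_toSet _)
  rw [Set.ncard_coe_finset, Multiset.card_Iic] at hle
  exact_mod_cast hle

theorem absNorm_eq_prod {K : Type} [Field K] [NumberField K] (J : Ideal (𝓞 K)) (hJ : J ≠ ⊥) :
    Ideal.absNorm J =
      ∏ P ∈ (normalizedFactors J).toFinset, Ideal.absNorm P ^ (normalizedFactors J).count P := by
  classical
  have h1 : (normalizedFactors J).prod = J := by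
    have := prod_normalizedFactors_eq (a := J) hJ
    simpa using this
  conv_lhs => rw [← h1]
  rw [map_multiset_prod, Finset.prod_multiset_map_count]

theorem divisor_bound (D : ℕ) (δ : ℝ) (hδ : 0 < δ) : ∃ C : ℝ, 1 ≤ C ∧
    ∀ (K : Type) [Field K] [NumberField K], Module.finrank ℚ K ≤ D →
    ∀ J : Ideal (𝓞 K), J ≠ ⊥ →
      {I : Ideal (𝓞 K) | I ∣ J}.Finite ∧
      (({I : Ideal (𝓞 K) | I ∣ J}.ncard : ℕ) : ℝ) ≤ C * (Ideal.absNorm J : ℝ) ^ δ := by
  classical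
  obtain ⟨B, hB⟩ : ∃ B : ℕ, (2 : ℝ) ^ (1 / δ) ≤ B := exists_nat_ge _
  set C0 : ℝ := 1 + 1 / ((2 : ℝ) ^ δ - 1) with hC0
  have h2 : (1 : ℝ) < (2 : ℝ) ^ δ := Real.one_lt_rpow (by norm_num) hδ
  have hC1 : 1 ≤ C0 := by
    rw [hC0]
    have : 0 < 1 / ((2 : ℝ) ^ δ - 1) := by
      apply one_div_pos.2; linarith
    linarith
  have hB1 : 1 ≤ B := by
    have : (1 : ℝ) ≤ (2 : ℝ) ^ (1 / δ) := Real.one_le_rpow (by norm_num) (by positivity)
    exact_mod_cast this.trans hB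
  refine ⟨C0 ^ (B ^ (D + 1)), one_le_pow₀ hC1, ?_⟩
  intro K _ _ hD J hJ
  obtain ⟨hfin, hcard⟩ := card_divisors J hJ
  refine ⟨hfin, hcard.trans ?_⟩
  set s := normalizedFactors J with hs
  have hprime : ∀ P ∈ s.toFinset, P.IsPrime ∧ P ≠ ⊥ := by
    intro P hP
    have hP' : P ∈ normalizedFactors J := Multiset.mem_toFinset.1 hP
    have hp := prime_of_normalized_factor P hP'
    exact ⟨Ideal.isPrime_of_prime hp, hp.ne_zero⟩
  have hN2 : ∀ P ∈ s.toFinset, 2 ≤ Ideal.absNorm P := by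
    intro P hP
    obtain ⟨h1, h2⟩ := hprime P hP
    have h3 : Ideal.absNorm P ≠ 1 := by
      intro h; rw [Ideal.absNorm_eq_one_iff] at h; exact h1.ne_top h
    have h4 : Ideal.absNorm P ≠ 0 := by
      intro h; rw [Ideal.absNorm_eq_zero_iff] at h; exact h2 h
    omega
  -- the small primes
  set small := s.toFinset.filter (fun P => Ideal.absNorm P ≤ B) with hsmall
  have hsc : small.card ≤ B ^ (D + 1) := by
    have h1 := (ideals_norm_le (K := K) B)
    have h3 : (small : Set (Ideal (𝓞 K))) ⊆ {J : Ideal (𝓞 K) | 1 ≤ Ideal.absNorm J ∧ Ideal.absNorm J ≤ B} := by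
      intro P hP
      have hP' := Finset.mem_filter.1 (Finset.mem_coe.1 hP)
      exact ⟨by have := hN2 P hP'.1; omega, hP'.2⟩
    have h4 := Set.ncard_le_ncard h3 h1.1
    rw [Set.ncard_coe_finset] at h4
    exact (h4.trans h1.2).trans (Nat.pow_le_pow_right hB1 (by omega))
  have key : ∀ P ∈ s.toFinset, ((s.count P : ℝ) + 1) ≤
      (if Ideal.absNorm P ≤ B then C0 else 1) * ((Ideal.absNorm P : ℝ) ^ δ) ^ (s.count P) := by
    intro P hP
    split_ifs with h
    · exact succ_le_const hδ (hN2 P hP) _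
    · rw [one_mul]
      apply succ_le_big
      have h5 : (2 : ℝ) ^ (1 / δ) ≤ (Ideal.absNorm P : ℝ) := hB.trans (by
        exact_mod_cast (not_le.1 h).le)
      calc (2 : ℝ) = ((2 : ℝ) ^ (1 / δ)) ^ δ := by
            rw [← Real.rpow_mul (by norm_num)]
            field_simp
            simp
        _ ≤ _ := Real.rpow_le_rpow (by positivity) h5 hδ.le
  calc ∏ P ∈ s.toFinset, ((s.count P : ℝ) + 1)
      ≤ ∏ P ∈ s.toFinset, ((if Ideal.absNorm P ≤ B then C0 else 1) *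
          ((Ideal.absNorm P : ℝ) ^ δ) ^ (s.count P)) := by
        apply Finset.prod_le_prod
        · intro P _; positivity
        · exact key
    _ = (∏ P ∈ s.toFinset, (if Ideal.absNorm P ≤ B then C0 else 1)) *
          ∏ P ∈ s.toFinset, ((Ideal.absNorm P : ℝ) ^ δ) ^ (s.count P) := Finset.prod_mul_distrib
    _ ≤ C0 ^ (B ^ (D + 1)) * (Ideal.absNorm J : ℝ) ^ δ := by
        apply mul_le_mul
        · rw [← Finset.prod_filter, Finset.prod_const]
          exact pow_le_pow_right₀ hC1 hsc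
        · rw [absNorm_eq_prod J hJ]
          push_cast
          rw [← Real.finsetProd_rpow]
          · apply le_of_eq
            apply Finset.prod_congr rfl
            intro P _
            rw [← Real.rpow_natCast, ← Real.rpow_natCast, ← Real.rpow_mul (by positivity),
              ← Real.rpow_mul (by positivity), mul_comm]
          · intro P _; positivity
        · apply Finset.prod_nonneg; intro P _; positivity
        · positivity

/-- The number of ideals of norm between `1` and `B` is `O(B ^ (1 + δ))`, uniformly in the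
field. -/
theorem ideals_norm_le2 (D : ℕ) (δ : ℝ) (hδ : 0 < δ) : ∃ C : ℝ, 1 ≤ C ∧
    ∀ (K : Type) [Field K] [NumberField K], Module.finrank ℚ K ≤ D → ∀ B : ℕ, 1 ≤ B →
      (({J : Ideal (𝓞 K) | 1 ≤ Ideal.absNorm J ∧ Ideal.absNorm J ≤ B}.ncard : ℕ) : ℝ)
        ≤ C * (B : ℝ) ^ (1 + δ) := by
  classical
  obtain ⟨C, hC1, hC⟩ := divisor_bound D (δ / (D + 1)) (by positivity)
  refine ⟨C, hC1, ?_⟩
  intro K _ _ hD B hB
  have hd : Module.finrank ℤ (𝓞 K) = Module.finrank ℚ K := RingOfIntegers.rank K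
  have hB1 : (1 : ℝ) ≤ B := by exact_mod_cast hB
  have hne : ∀ n ∈ Finset.Icc 1 B, (Ideal.span {(n : 𝓞 K)}) ≠ ⊥ := by
    intro n hn h
    rw [Ideal.span_singleton_eq_bot] at h
    have : (n : 𝓞 K) ≠ 0 := by
      have := (Finset.mem_Icc.1 hn).1
      exact_mod_cast (by omega : n ≠ 0)
    exact this h
  have hsub : {J : Ideal (𝓞 K) | 1 ≤ Ideal.absNorm J ∧ Ideal.absNorm J ≤ B} ⊆
      ⋃ n ∈ Finset.Icc 1 B, {J : Ideal (𝓞 K) | J ∣ Ideal.span {(n : 𝓞 K)}} := by
    intro J hJ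
    simp only [Set.mem_iUnion, Finset.mem_Icc]
    refine ⟨Ideal.absNorm J, ⟨hJ.1, hJ.2⟩, ?_⟩
    show J ∣ _
    rw [Ideal.dvd_span_singleton]
    exact Ideal.absNorm_mem J
  have hfin : (⋃ n ∈ Finset.Icc 1 B, {J : Ideal (𝓞 K) | J ∣ Ideal.span {(n : 𝓞 K)}}).Finite := by
    apply Set.Finite.biUnion (Finset.finite_toSet _)
    intro n hn
    exact (hC K hD _ (hne n hn)).1
  have hpt : ∀ n ∈ Finset.Icc 1 B,
      (({J : Ideal (𝓞 K) | J ∣ Ideal.span {(n : 𝓞 K)}}.ncard : ℕ) : ℝ) ≤ C * (B : ℝ) ^ δ := by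
    intro n hn
    have h1 := (hC K hD _ (hne n hn)).2
    have hn1 := (Finset.mem_Icc.1 hn).1
    have hn2 := (Finset.mem_Icc.1 hn).2
    have h2 : Ideal.absNorm (Ideal.span {(n : 𝓞 K)}) = n ^ (Module.finrank ℚ K) := by
      rw [Ideal.absNorm_span_singleton]
      have : (n : 𝓞 K) = algebraMap ℤ (𝓞 K) (n : ℤ) := by simp
      rw [this, Algebra.norm_algebraMap, hd]
      simp [Int.natAbs_pow]
    rw [h2] at h1
    have hn1R : (1 : ℝ) ≤ n := by exact_mod_cast hn1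
    refine h1.trans ?_
    apply mul_le_mul_of_nonneg_left _ (by linarith)
    push_cast
    rw [← Real.rpow_natCast, ← Real.rpow_mul (by positivity)]
    have hDR : ((Module.finrank ℚ K : ℕ) : ℝ) ≤ D := by exact_mod_cast hD
    have hD0 : (0 : ℝ) ≤ D := Nat.cast_nonneg D
    calc (n : ℝ) ^ (((Module.finrank ℚ K : ℕ) : ℝ) * (δ / ((D : ℝ) + 1))) ≤ (n : ℝ) ^ δ := by
          apply Real.rpow_le_rpow_of_exponent_le hn1R
          rw [mul_div_assoc', div_le_iff₀ (by positivity)]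
          nlinarith
      _ ≤ (B : ℝ) ^ δ := Real.rpow_le_rpow (by positivity) (by exact_mod_cast hn2) hδ.le
  calc (({J : Ideal (𝓞 K) | 1 ≤ Ideal.absNorm J ∧ Ideal.absNorm J ≤ B}.ncard : ℕ) : ℝ)
      ≤ (((⋃ n ∈ Finset.Icc 1 B, {J : Ideal (𝓞 K) | J ∣ Ideal.span {(n : 𝓞 K)}}).ncard : ℕ) : ℝ) := by
        exact_mod_cast Set.ncard_le_ncard hsub hfin
    _ ≤ ((∑ n ∈ Finset.Icc 1 B, {J : Ideal (𝓞 K) | J ∣ Ideal.span {(n : 𝓞 K)}}.ncard : ℕ) : ℝ) := by
        exact_mod_cast Finset.set_ncard_biUnion_le _ _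
    _ = ∑ n ∈ Finset.Icc 1 B, (({J : Ideal (𝓞 K) | J ∣ Ideal.span {(n : 𝓞 K)}}.ncard : ℕ) : ℝ) := by
        push_cast; rfl
    _ ≤ ∑ n ∈ Finset.Icc 1 B, C * (B : ℝ) ^ δ := Finset.sum_le_sum hpt
    _ = C * (B : ℝ) ^ (1 + δ) := by
        rw [Finset.sum_const, Nat.card_Icc, nsmul_eq_mul, Nat.add_sub_cancel,
          Real.rpow_add (by linarith), Real.rpow_one]
        ring

end Pool.Agent.Work.MP_2738db_nt_helper84
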