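import Mathlib

/-! Counting ideals of the ring of integers of a number field, uniformly in the field
(only the degree enters). -/

namespace Pool.Agent.Work.MP_2738db_nt_helper84

open NumberField

variable {K : Type*} [Field K] [NumberField K]

/-- The ideals containing a nonzero ideal `I`: there are at most `N(I)` of them. -/
theorem ideals_ge (I : Ideal (𝓞 K)) (hI : I ≠ ⊥) :
    {J : Ideal (𝓞 K) | I ≤ J}.Finite ∧ {J : Ideal (𝓞 K) | I ≤ J}.ncard ≤ Ideal.absNorm I := by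
  have hfin : Finite (𝓞 K ⧸ I) := Ideal.finiteQuotientOfFreeOfNeBot I hI
  let g : (𝓞 K ⧸ I) → Ideal (𝓞 K) := fun q => Ideal.comap (Ideal.Quotient.mk I) (Ideal.span {q})
  have hsub : {J : Ideal (𝓞 K) | I ≤ J} ⊆ Set.range g := by
    intro J hJ
    obtain ⟨a, ha⟩ := IsDedekindDomain.exists_sup_span_eq (R := 𝓞 K) hJ hI
    refine ⟨Ideal.Quotient.mk I a, ?_⟩
    have h1 : Ideal.span {Ideal.Quotient.mk I a} = Ideal.map (Ideal.Quotient.mk I) (Ideal.span {a}) := by
      rw [Ideal.map_span, Set.image_singleton]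
    show Ideal.comap (Ideal.Quotient.mk I) (Ideal.span {Ideal.Quotient.mk I a}) = J
    rw [h1, Ideal.comap_map_of_surjective _ Ideal.Quotient.mk_surjective, ← ha, sup_comm]
    congr 1
    exact Ideal.mk_ker
  have hr : (Set.range g).Finite := Set.finite_range g
  refine ⟨hr.subset hsub, ?_⟩
  calc {J : Ideal (𝓞 K) | I ≤ J}.ncard ≤ (Set.range g).ncard := Set.ncard_le_ncard hsub hr
    _ ≤ Nat.card (𝓞 K ⧸ I) := by
        rw [← Set.image_univ, ← Set.ncard_univ]
        exact Set.ncard_image_le Set.finite_univ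
    _ = Ideal.absNorm I := by rw [Ideal.absNorm_apply]; rfl

/-- The ideals of norm between `1` and `B`: at most `B ^ (d + 1)`. -/
theorem ideals_norm_le (B : ℕ) :
    {J : Ideal (𝓞 K) | 1 ≤ Ideal.absNorm J ∧ Ideal.absNorm J ≤ B}.Finite ∧
    {J : Ideal (𝓞 K) | 1 ≤ Ideal.absNorm J ∧ Ideal.absNorm J ≤ B}.ncard
      ≤ B ^ (Module.finrank ℚ K + 1) := by
  classical
  have hd : Module.finrank ℤ (𝓞 K) = Module.finrank ℚ K := RingOfIntegers.rank K
  have hn : ∀ n : ℕ, 1 ≤ n → (Ideal.span {(n : 𝓞 K)}) ≠ ⊥ := by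
    intro n hn h
    rw [Ideal.span_singleton_eq_bot] at h
    have : (n : 𝓞 K) ≠ 0 := by exact_mod_cast (by omega : n ≠ 0)
    exact this h
  have hsub : {J : Ideal (𝓞 K) | 1 ≤ Ideal.absNorm J ∧ Ideal.absNorm J ≤ B} ⊆
      ⋃ n ∈ Finset.Icc 1 B, {J : Ideal (𝓞 K) | Ideal.span {(n : 𝓞 K)} ≤ J} := by
    intro J hJ
    simp only [Set.mem_iUnion, Finset.mem_Icc]
    refine ⟨Ideal.absNorm J, ⟨hJ.1, hJ.2⟩, ?_⟩
    rw [Set.mem_setOf_eq, Ideal.span_singleton_le_iff_mem]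
    exact Ideal.absNorm_mem J
  have hfin : (⋃ n ∈ Finset.Icc 1 B, {J : Ideal (𝓞 K) | Ideal.span {(n : 𝓞 K)} ≤ J}).Finite := by
    apply Set.Finite.biUnion (Finset.finite_toSet _)
    intro n hn'
    exact (ideals_ge _ (hn n (Finset.mem_Icc.1 hn').1)).1
  refine ⟨hfin.subset hsub, ?_⟩
  calc {J : Ideal (𝓞 K) | 1 ≤ Ideal.absNorm J ∧ Ideal.absNorm J ≤ B}.ncard
      ≤ (⋃ n ∈ Finset.Icc 1 B, {J : Ideal (𝓞 K) | Ideal.span {(n : 𝓞 K)} ≤ J}).ncard :=
        Set.ncard_le_ncard hsub hfin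
    _ ≤ ∑ n ∈ Finset.Icc 1 B, {J : Ideal (𝓞 K) | Ideal.span {(n : 𝓞 K)} ≤ J}.ncard :=
        Finset.set_ncard_biUnion_le _ _
    _ ≤ ∑ n ∈ Finset.Icc 1 B, B ^ (Module.finrank ℚ K) := by
        apply Finset.sum_le_sum
        intro n hn'
        have h1 := (Finset.mem_Icc.1 hn').1
        have h2 := (Finset.mem_Icc.1 hn').2
        refine ((ideals_ge _ (hn n h1)).2).trans ?_
        have : Ideal.absNorm (Ideal.span {(n : 𝓞 K)}) = n ^ (Module.finrank ℚ K) := by
          rw [Ideal.absNorm_span_singleton]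
          have : (n : 𝓞 K) = algebraMap ℤ (𝓞 K) (n : ℤ) := by simp
          rw [this, Algebra.norm_algebraMap, hd]
          simp [Int.natAbs_pow]
        rw [this]
        exact Nat.pow_le_pow_left h2 _
    _ = B ^ (Module.finrank ℚ K + 1) := by
        rw [Finset.sum_const, Nat.card_Icc, smul_eq_mul, pow_succ]
        simp [mul_comm]

end Pool.Agent.Work.MP_2738db_nt_helper84
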