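import Pool.Agent.Work.MP_2738db_nt_helper84.Descent

/-! Counting the `x` in one pair of classes: they give pairs of divisors of a fixed element in a
field `M` of bounded degree. -/

namespace Pool.Agent.Work.MP_2738db_nt_helper84

open NumberField

theorem fieldRange_finrank {K : Type} [Field K] [NumberField K] (τ : K →ₐ[ℚ] ℂ) :
    FiniteDimensional ℚ τ.fieldRange ∧ Module.finrank ℚ τ.fieldRange = Module.finrank ℚ K := by
  let e : K ≃ₐ[ℚ] τ.fieldRange := AlgEquiv.ofInjectiveField τ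
  exact ⟨Module.Finite.equiv e.toLinearEquiv, e.toLinearEquiv.finrank_eq.symm⟩

theorem exists_M {K : Type} [Field K] [NumberField K] (τ1 τ2 : K →+* ℂ) (t : ℕ) (ht : 2 ≤ t)
    (a1 a2 : K) : ∃ M : IntermediateField ℚ ℂ, ∃ _ : NumberField M,
      Module.finrank ℚ M ≤ t * (t * (t * (Module.finrank ℚ K * Module.finrank ℚ K))) ∧
      (∀ a, τ1 a ∈ M) ∧ (∀ a, τ2 a ∈ M) ∧
      ∃ ω γ1 γ2 : ℂ, ω ∈ M ∧ γ1 ∈ M ∧ γ2 ∈ M ∧ IsPrimitiveRoot ω t ∧ γ1 ^ t = τ1 a1 ∧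
        γ2 ^ t = τ2 a2 := by
  have ht0 : t ≠ 0 := by omega
  obtain ⟨γ1, hγ1⟩ : ∃ γ : ℂ, γ ^ t = τ1 a1 := IsAlgClosed.exists_pow_nat_eq _ (by omega)
  obtain ⟨γ2, hγ2⟩ : ∃ γ : ℂ, γ ^ t = τ2 a2 := IsAlgClosed.exists_pow_nat_eq _ (by omega)
  set ω : ℂ := Complex.exp (2 * Real.pi * Complex.I / t) with hω
  have hωp : IsPrimitiveRoot ω t := Complex.isPrimitiveRoot_exp t ht0
  let T1 : K →ₐ[ℚ] ℂ := RingHom.toRatAlgHom τ1
  let T2 : K →ₐ[ℚ] ℂ := RingHom.toRatAlgHom τ2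
  obtain ⟨hf1, hd1⟩ := fieldRange_finrank T1
  obtain ⟨hf2, hd2⟩ := fieldRange_finrank T2
  let M0 : IntermediateField ℚ ℂ := T1.fieldRange ⊔ T2.fieldRange
  have hf0 : FiniteDimensional ℚ M0 := IntermediateField.finiteDimensional_sup _ _
  have hd0 : Module.finrank ℚ M0 ≤ Module.finrank ℚ K * Module.finrank ℚ K := by
    have h := IntermediateField.finrank_sup_le T1.fieldRange T2.fieldRange
    rw [hd1, hd2] at h
    exact h
  have hm1 : ∀ a, τ1 a ∈ M0 := by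
    intro a
    have h1 : T1.fieldRange ≤ M0 := le_sup_left
    exact h1 ⟨a, rfl⟩
  have hm2 : ∀ a, τ2 a ∈ M0 := by
    intro a
    have h1 : T2.fieldRange ≤ M0 := le_sup_right
    exact h1 ⟨a, rfl⟩
  obtain ⟨M1, hM1, hω1, hF1, hD1⟩ := adj M0 ω t (by omega) (by rw [hωp.pow_eq_one]; exact one_mem M0)
  obtain ⟨M2, hM2, hg2, hF2, hD2⟩ := adj M1 γ1 t (by omega) (by rw [hγ1]; exact hM1 (hm1 _))
  obtain ⟨M3, hM3, hg3, hF3, hD3⟩ := adj M2 γ2 t (by omega) (by rw [hγ2]; exact hM2 (hM1 (hm2 _)))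
  refine ⟨M3, { to_charZero := inferInstance, to_finiteDimensional := hF3 }, ?_, ?_, ?_, ω, γ1, γ2,
    hM3 (hM2 hω1), hM3 hg2, hg3, hωp, hγ1, hγ2⟩
  · exact hD3.trans (Nat.mul_le_mul_left _ (hD2.trans (Nat.mul_le_mul_left _
      (hD1.trans (Nat.mul_le_mul_left _ hd0)))))
  · exact fun a => hM3 (hM2 (hM1 (hm1 a)))
  · exact fun a => hM3 (hM2 (hM1 (hm2 a)))

theorem norm_le_of_pow {a : ℝ} {t : ℕ} {Y : ℝ} (hY : 1 ≤ Y) (h : a ^ t ≤ Y)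
    (ht : 1 ≤ t) : a ≤ Y := by
  by_contra hcon
  push Not at hcon
  have h1 : 1 ≤ a := by linarith
  have : a ≤ a ^ t := le_self_pow₀ h1 (by omega)
  linarith

theorem one_class (s t : ℕ) (hs : 1 ≤ s) (ht : 2 ≤ t) (δ : ℝ) (hδ : 0 < δ) :
    ∃ C : ℝ, 1 ≤ C ∧ ∀ (K : Type) [Field K] [NumberField K],
    Module.finrank ℚ K ≤ s → ∀ (τ1 τ2 : K →+* ℂ) (η1 η2 f1 f2 : 𝓞 K) (D : ℕ),
    η1 ^ s = (D : 𝓞 K) → η2 ^ s = (D : 𝓞 K) → τ1 (η1 : K) ≠ τ2 (η2 : K) →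
    ∀ X : ℝ, 1 ≤ X → (D : ℝ) ≤ X →
      {x : ℕ | (x : ℝ) ≤ X ∧ Cls t (η1 - (x : 𝓞 K)) f1 ∧ Cls t (η2 - (x : 𝓞 K)) f2}.Finite ∧
      (({x : ℕ | (x : ℝ) ≤ X ∧ Cls t (η1 - (x : 𝓞 K)) f1 ∧
        Cls t (η2 - (x : 𝓞 K)) f2}.ncard : ℕ) : ℝ) ≤ C * X ^ δ := by
  classical
  obtain ⟨C1, hC1, hcount⟩ := count_divisors (t * (t * (t * (s * s)))) (δ / 2) (by positivity)
  have h4 : (1 : ℝ) ≤ (4 : ℝ) ^ (δ / 2) := Real.one_le_rpow (by norm_num) (by positivity)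
  refine ⟨(C1 * 4 ^ (δ / 2)) * (C1 * 4 ^ (δ / 2)), ?_, ?_⟩
  · have : 1 ≤ C1 * 4 ^ (δ / 2) := by
      calc (1 : ℝ) = 1 * 1 := by ring
        _ ≤ _ := mul_le_mul hC1 h4 (by norm_num) (by linarith)
    calc (1 : ℝ) = 1 * 1 := by ring
      _ ≤ _ := mul_le_mul this this (by norm_num) (by linarith)
  intro K _ _ hdK τ1 τ2 η1 η2 f1 f2 D hη1 hη2 hne X hX hDX
  set S := {x : ℕ | (x : ℝ) ≤ X ∧ Cls t (η1 - (x : 𝓞 K)) f1 ∧ Cls t (η2 - (x : 𝓞 K)) f2} with hS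
  have hs0 : s ≠ 0 := by omega
  obtain ⟨M, hM, hdM, hτ1M, hτ2M, ω, γ1, γ2, hωM, hγ1M, hγ2M, hωp, hγ1, hγ2⟩ :=
    exists_M τ1 τ2 t ht (f1 : K) (f2 : K)
  have hdM' : Module.finrank ℚ M ≤ t * (t * (t * (s * s))) :=
    hdM.trans (Nat.mul_le_mul_left _ (Nat.mul_le_mul_left _ (Nat.mul_le_mul_left _
      (Nat.mul_le_mul hdK hdK))))
  have hiM := inc_injective M
  have hint : ∀ (τ : K →+* ℂ) (a : 𝓞 K), IsIntegral ℤ (τ (a : K)) := by
    intro τ a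
    exact (RingOfIntegers.isIntegral_coe a).map τ.toIntAlgHom
  obtain ⟨E1, hE1⟩ := inc_lift M (τ1 (η1 : K)) (hτ1M _) (hint _ _)
  obtain ⟨E2, hE2⟩ := inc_lift M (τ2 (η2 : K)) (hτ2M _) (hint _ _)
  obtain ⟨ωM, hωM'⟩ := inc_lift M ω hωM (hωp.isIntegral (by omega))
  have hcoe : ∀ η : 𝓞 K, η ^ s = (D : 𝓞 K) → (η : K) ^ s = (D : K) := by
    intro η h
    have := congrArg (algebraMap (𝓞 K) K) h
    simpa using this
  have hE1s : E1 ^ s = (D : 𝓞 M) := by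
    apply hiM
    rw [map_pow, hE1, ← map_pow, hcoe η1 hη1, map_natCast, map_natCast]
  have hE2s : E2 ^ s = (D : 𝓞 M) := by
    apply hiM
    rw [map_pow, hE2, ← map_pow, hcoe η2 hη2, map_natCast, map_natCast]
  have hωMp : IsPrimitiveRoot ωM t :=
    IsPrimitiveRoot.of_map_of_injective (f := inc M) (by rw [hωM']; exact hωp) hiM
  have hωM1 : ωM ≠ 1 := hωMp.ne_one (by omega)
  set c : 𝓞 M := E1 - E2 with hc
  have hc0 : c ≠ 0 := by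
    intro h
    have h1 : E1 = E2 := sub_eq_zero.1 h
    apply hne
    rw [← hE1, ← hE2, h1]
  -- conjugate bounds
  have hX0 : (0 : ℝ) < X := by linarith
  have hφω : ∀ φ : M →+* ℂ, ‖φ (ωM : M)‖ = 1 := by
    intro φ
    have h1 : (φ (ωM : M)) ^ t = 1 := by
      rw [← map_pow]
      have : ((ωM : M)) ^ t = 1 := by
        have := congrArg (algebraMap (𝓞 M) M) hωMp.pow_eq_one
        simpa using this
      rw [this, map_one]
    exact Complex.norm_eq_one_of_pow_eq_one h1 (by omega)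
  have hφE : ∀ E : 𝓞 M, E ^ s = (D : 𝓞 M) → ∀ φ : M →+* ℂ, ‖φ (E : M)‖ ≤ X := by
    intro E hE φ
    apply norm_le_of_pow hX _ (show 1 ≤ s by omega)
    rw [← norm_pow, ← map_pow]
    have : ((E : M)) ^ s = D := by
      have := congrArg (algebraMap (𝓞 M) M) hE
      simpa using this
    rw [this, map_natCast]
    simpa using hDX
  have hcY : ∀ φ : M →+* ℂ, ‖φ (c : M)‖ ≤ 4 * X := by
    intro φ
    have h1 : (c : M) = (E1 : M) - (E2 : M) := rfl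
    rw [h1, map_sub]
    calc _ ≤ ‖φ (E1 : M)‖ + ‖φ (E2 : M)‖ := norm_sub_le _ _
      _ ≤ X + X := add_le_add (hφE E1 hE1s φ) (hφE E2 hE2s φ)
      _ ≤ 4 * X := by linarith
  obtain ⟨hUfin, hUcard⟩ := hcount M hdM' c hc0 (4 * X) (by linarith) hcY
  set U := {u : 𝓞 M | u ∣ c ∧ ∀ φ : M →+* ℂ, ‖φ (u : M)‖ ≤ 4 * X} with hU
  -- the roots
  have key : ∀ (τ : K →+* ℂ) (hτ : ∀ a, τ a ∈ M) (A f : 𝓞 K) (γ : ℂ), γ ∈ M → γ ^ t = τ (f : K) →
      Cls t A f → ∃ b : 𝓞 M, (inc M b) ^ t = τ (A : K) := by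
    rintro τ hτ A f γ hγ hγt ⟨β, β', hβ, hβ', he⟩
    have hb'0 : τ (β' : K) ≠ 0 := by
      rw [Ne, map_eq_zero]
      intro h
      exact hβ' (by simpa using h)
    have hB : (γ * τ (β : K) / τ (β' : K)) ^ t = τ (A : K) := by
      rw [div_pow, mul_pow, hγt, div_eq_iff (pow_ne_zero _ hb'0)]
      have h1 := congrArg (fun a : 𝓞 K => τ (a : K)) he
      simp only [map_mul, map_pow] at h1
      exact h1.symm
    have hBi : IsIntegral ℤ (γ * τ (β : K) / τ (β' : K)) := by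
      have h0 : IsIntegral ℤ ((γ * τ (β : K) / τ (β' : K)) ^ t) := by
        rw [hB]; exact hint τ A
      exact IsIntegral.of_pow (by omega) h0
    have hBM : γ * τ (β : K) / τ (β' : K) ∈ M :=
      div_mem (mul_mem hγ (hτ _)) (hτ _)
    obtain ⟨b, hb⟩ := inc_lift M _ hBM hBi
    exact ⟨b, by rw [hb, hB]⟩
  have hroots : ∀ x ∈ S, ∃ b : 𝓞 M × 𝓞 M, b.1 ^ t = E1 - x ∧ b.2 ^ t = E2 - x := by
    intro x hx
    obtain ⟨b1, hb1⟩ := key τ1 hτ1M _ _ γ1 hγ1M hγ1 hx.2.1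
    obtain ⟨b2, hb2⟩ := key τ2 hτ2M _ _ γ2 hγ2M hγ2 hx.2.2
    refine ⟨(b1, b2), ?_, ?_⟩
    · apply hiM
      rw [map_pow, hb1, map_sub, hE1, map_natCast]
      have : ((η1 - (x : 𝓞 K) : 𝓞 K) : K) = (η1 : K) - x := by simp
      rw [this, map_sub, map_natCast]
    · apply hiM
      rw [map_pow, hb2, map_sub, hE2, map_natCast]
      have : ((η2 - (x : 𝓞 K) : 𝓞 K) : K) = (η2 : K) - x := by simp
      rw [this, map_sub, map_natCast]
  choose! b hb using hroots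
  have hbn : ∀ x ∈ S, ∀ (E b : 𝓞 M), E ^ s = (D : 𝓞 M) → b ^ t = E - x → ∀ φ : M →+* ℂ,
      ‖φ (b : M)‖ ≤ 2 * X := by
    intro x hx E b hE hb φ
    have hxX : (x : ℝ) ≤ X := hx.1
    apply norm_le_of_pow (by linarith : (1 : ℝ) ≤ 2 * X) _ (show 1 ≤ t by omega)
    have h1 : (b : M) ^ t = (E : M) - x := by
      have := congrArg (algebraMap (𝓞 M) M) hb
      simpa using this
    rw [← norm_pow, ← map_pow, h1, map_sub, map_natCast]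
    calc ‖φ (E : M) - (x : ℂ)‖ ≤ ‖φ (E : M)‖ + ‖(x : ℂ)‖ := norm_sub_le _ _
      _ ≤ X + X := add_le_add (hφE E hE φ) (by simpa using hxX)
      _ = 2 * X := by ring
  have hbnorm : ∀ x ∈ S, ∀ φ : M →+* ℂ, ‖φ ((b x).1 : M)‖ ≤ 2 * X ∧ ‖φ ((b x).2 : M)‖ ≤ 2 * X :=
    fun x hx φ => ⟨hbn x hx E1 _ hE1s (hb x hx).1 φ, hbn x hx E2 _ hE2s (hb x hx).2 φ⟩
  have hbc : ∀ x ∈ S, (b x).1 ^ t - (b x).2 ^ t = c := by
    intro x hx
    rw [(hb x hx).1, (hb x hx).2, hc]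
    ring
  let G : ℕ → 𝓞 M × 𝓞 M := fun x => ((b x).1 - (b x).2, (b x).1 - ωM * (b x).2)
  have hGmaps : ∀ x ∈ S, G x ∈ U ×ˢ U := by
    intro x hx
    refine ⟨⟨?_, ?_⟩, ⟨?_, ?_⟩⟩
    · rw [← hbc x hx]; exact sub_dvd_pow_sub_pow _ _ t
    · intro φ
      have h1 : (((b x).1 - (b x).2 : 𝓞 M) : M) = ((b x).1 : M) - ((b x).2 : M) := rfl
      show ‖φ (((b x).1 - (b x).2 : 𝓞 M) : M)‖ ≤ 4 * X
      rw [h1, map_sub]
      have h2 := hbnorm x hx φ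
      calc _ ≤ ‖φ ((b x).1 : M)‖ + ‖φ ((b x).2 : M)‖ := norm_sub_le _ _
        _ ≤ 4 * X := by linarith [h2.1, h2.2]
    · have h1 : (b x).1 ^ t - (ωM * (b x).2) ^ t = c := by
        rw [mul_pow, hωMp.pow_eq_one, one_mul]; exact hbc x hx
      show (b x).1 - ωM * (b x).2 ∣ c
      rw [← h1]
      exact sub_dvd_pow_sub_pow _ _ t
    · intro φ
      have h1 : (((b x).1 - ωM * (b x).2 : 𝓞 M) : M) =
          ((b x).1 : M) - (ωM : M) * ((b x).2 : M) := rfl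
      show ‖φ (((b x).1 - ωM * (b x).2 : 𝓞 M) : M)‖ ≤ 4 * X
      rw [h1, map_sub, map_mul]
      have h2 := hbnorm x hx φ
      calc _ ≤ ‖φ ((b x).1 : M)‖ + ‖φ (ωM : M) * φ ((b x).2 : M)‖ := norm_sub_le _ _
        _ = ‖φ ((b x).1 : M)‖ + ‖φ ((b x).2 : M)‖ := by rw [norm_mul, hφω, one_mul]
        _ ≤ 4 * X := by linarith [h2.1, h2.2]
  have hGinj : Set.InjOn G S := by
    intro x hx x' hx' h
    have h1 : (b x).1 - (b x).2 = (b x').1 - (b x').2 := congrArg Prod.fst h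
    have h2 : (b x).1 - ωM * (b x).2 = (b x').1 - ωM * (b x').2 := congrArg Prod.snd h
    have h3 : (ωM - 1) * ((b x).2 - (b x').2) = 0 := by
      have : (ωM - 1) * ((b x).2 - (b x').2) = ((b x).1 - (b x).2) - ((b x').1 - (b x').2) -
        (((b x).1 - ωM * (b x).2) - ((b x').1 - ωM * (b x').2)) := by ring
      rw [this, h1, h2]; ring
    have h4 : (b x).2 = (b x').2 := by
      rcases mul_eq_zero.1 h3 with h5 | h5
      · exact absurd (sub_eq_zero.1 h5) hωM1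
      · exact sub_eq_zero.1 h5
    have h5 := (hb x hx).2
    have h6 := (hb x' hx').2
    rw [h4, h6] at h5
    have h8 : (x : 𝓞 M) = x' := by linear_combination h5
    exact_mod_cast h8
  have hUU : (U ×ˢ U).Finite := hUfin.prod hUfin
  refine ⟨Set.Finite.of_finite_image (hUU.subset (Set.image_subset_iff.2 hGmaps)) hGinj, ?_⟩
  have hle : S.ncard ≤ U.ncard * U.ncard := by
    have := Set.ncard_le_ncard_of_injOn G hGmaps hGinj hUU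
    rwa [Set.ncard_prod] at this
  have hYX : (4 * X) ^ (δ / 2) = 4 ^ (δ / 2) * X ^ (δ / 2) :=
    Real.mul_rpow (by norm_num) hX0.le
  rw [hYX] at hUcard
  calc (S.ncard : ℝ) ≤ (U.ncard : ℝ) * U.ncard := by exact_mod_cast hle
    _ ≤ (C1 * (4 ^ (δ / 2) * X ^ (δ / 2))) * (C1 * (4 ^ (δ / 2) * X ^ (δ / 2))) :=
        mul_le_mul hUcard hUcard (Nat.cast_nonneg _) (by positivity)
    _ = (C1 * 4 ^ (δ / 2)) * (C1 * 4 ^ (δ / 2)) * (X ^ (δ / 2) * X ^ (δ / 2)) := by ring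
    _ = (C1 * 4 ^ (δ / 2)) * (C1 * 4 ^ (δ / 2)) * X ^ δ := by
        rw [← Real.rpow_add hX0]; congr 2; ring

end Pool.Agent.Work.MP_2738db_nt_helper84
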